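import Mathlib

/-!
# BC, block GEO: hyperbolic distances of the points `g • I` in terms of matrices
-/

set_option autoImplicit false

open UpperHalfPlane Matrix Real
open scoped MatrixGroups

namespace Pool.Agent.H99.BC

/-- the group -/
abbrev SG := Matrix.SpecialLinearGroup (Fin 2) ℝ

theorem det_eq (g : SG) : g 0 0 * g 1 1 - g 0 1 * g 1 0 = 1 := by
  have h := g.det_coe
  rwa [Matrix.det_fin_two] at h

/-- the sum of the squares of the entries -/
def nsq (g : SG) : ℝ := g 0 0 ^ 2 + g 0 1 ^ 2 + g 1 0 ^ 2 + g 1 1 ^ 2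

theorem coe_smul_I (g : SG) : ((g • I : ℍ) : ℂ) =
    ((g 0 0 : ℂ) * Complex.I + g 0 1) / ((g 1 0 : ℂ) * Complex.I + g 1 1) := by
  rw [coe_specialLinearGroup_apply]
  simp

theorem den_pos (g : SG) : 0 < g 1 0 ^ 2 + g 1 1 ^ 2 := by
  have h := det_eq g
  by_contra hcon
  have h1 : g 1 0 ^ 2 + g 1 1 ^ 2 = 0 := le_antisymm (not_lt.1 hcon) (by positivity)
  have h2 : g 1 0 = 0 := by nlinarith [sq_nonneg (g 1 0), sq_nonneg (g 1 1)]
  have h3 : g 1 1 = 0 := by nlinarith [sq_nonneg (g 1 0), sq_nonneg (g 1 1)]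
  rw [h2, h3] at h
  simp at h

theorem im_smul_I (g : SG) : (g • I : ℍ).im = 1 / (g 1 0 ^ 2 + g 1 1 ^ 2) := by
  have h := det_eq g
  have h0 := den_pos g
  have h1 : (g • I : ℍ).im = ((g • I : ℍ) : ℂ).im := rfl
  have h2 : g 1 1 * g 1 1 + g 1 0 * g 1 0 = g 1 0 ^ 2 + g 1 1 ^ 2 := by ring
  rw [h1, coe_smul_I, Complex.div_im]
  simp only [Complex.add_im, Complex.mul_im, Complex.ofReal_re, Complex.I_im, Complex.ofReal_im,
    Complex.I_re, Complex.add_re, Complex.mul_re, Complex.normSq_apply, mul_one, mul_zero,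
    add_zero, zero_add, h2, sub_self]
  rw [← sub_div, h]

theorem re_smul_I (g : SG) : (g • I : ℍ).re =
    (g 0 0 * g 1 0 + g 0 1 * g 1 1) / (g 1 0 ^ 2 + g 1 1 ^ 2) := by
  have h0 := den_pos g
  have h1 : (g • I : ℍ).re = ((g • I : ℍ) : ℂ).re := rfl
  have h2 : g 1 1 * g 1 1 + g 1 0 * g 1 0 = g 1 0 ^ 2 + g 1 1 ^ 2 := by ring
  rw [h1, coe_smul_I, Complex.div_re]
  simp only [Complex.add_im, Complex.mul_im, Complex.ofReal_re, Complex.I_im, Complex.ofReal_im,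
    Complex.I_re, Complex.add_re, Complex.mul_re, Complex.normSq_apply, mul_one, mul_zero,
    add_zero, zero_add, h2, sub_self]
  rw [← add_div, add_comm]

theorem cosh_dist_I (g : SG) : cosh (dist I (g • I)) = nsq g / 2 := by
  have h := det_eq g
  have h0 := den_pos g
  rw [cosh_dist', im_smul_I, re_smul_I]
  unfold nsq
  simp only [I_im, I_re]
  have h2 : (g 0 0 * g 1 0 + g 0 1 * g 1 1) ^ 2 + 1 =
      (g 0 0 ^ 2 + g 0 1 ^ 2) * (g 1 0 ^ 2 + g 1 1 ^ 2) := by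
    have : (g 0 0 * g 1 0 + g 0 1 * g 1 1) ^ 2 + (g 0 0 * g 1 1 - g 0 1 * g 1 0) ^ 2 =
      (g 0 0 ^ 2 + g 0 1 ^ 2) * (g 1 0 ^ 2 + g 1 1 ^ 2) := by ring
    rw [h] at this
    linarith
  field_simp
  nlinarith [h2]

theorem four_sinh_sq (g : SG) : (2 * sinh (dist I (g • I) / 2)) ^ 2 =
    (g 0 0 - g 1 1) ^ 2 + (g 0 1 + g 1 0) ^ 2 := by
  have h := cosh_dist_I g
  have hd := det_eq g
  have h1 : cosh (dist I (g • I)) = 2 * sinh (dist I (g • I) / 2) ^ 2 + 1 := by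
    have := cosh_two_mul (dist I (g • I) / 2)
    rw [show 2 * (dist I (g • I) / 2) = dist I (g • I) by ring] at this
    rw [this, cosh_sq]
    ring
  rw [h1] at h
  unfold nsq at h
  nlinarith

/-- displacement of the base point -/
theorem dist_I_le (g : SG) : dist I (g • I) ≤ |g 0 0 - g 1 1| + |g 0 1 + g 1 0| := by
  have h := four_sinh_sq g
  have h0 : 0 ≤ dist I (g • I) / 2 := by positivity
  have h1 : dist I (g • I) / 2 ≤ sinh (dist I (g • I) / 2) := self_le_sinh_iff.2 h0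
  have h2 : 2 * sinh (dist I (g • I) / 2) ≤ |g 0 0 - g 1 1| + |g 0 1 + g 1 0| := by
    apply abs_le_of_sq_le_sq' _ (by positivity) |>.2
    rw [h, add_sq (|g 0 0 - g 1 1|), sq_abs, sq_abs]
    nlinarith [mul_nonneg (abs_nonneg (g 0 0 - g 1 1)) (abs_nonneg (g 0 1 + g 1 0))]
  linarith

theorem dist_smul_smul (g h : SG) : dist (g • I) (h • I) = dist I ((g⁻¹ * h) • I) := by
  rw [mul_smul, ← dist_smul g I (g⁻¹ • h • I), smul_inv_smul]

/-- displacement of the point `k • I` -/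
theorem disp_le (g k : SG) : dist (k • I) (g • k • I) ≤
    |(k⁻¹ * g * k) 0 0 - (k⁻¹ * g * k) 1 1| + |(k⁻¹ * g * k) 0 1 + (k⁻¹ * g * k) 1 0| := by
  have h := dist_I_le (k⁻¹ * g * k)
  have h1 : dist (k • I) (g • k • I) = dist I ((k⁻¹ * g * k) • I) := by
    rw [← mul_smul, dist_smul_smul, mul_assoc]
  rwa [h1]

theorem nsq_le (g : SG) : nsq g ≤ 2 * exp (dist I (g • I)) := by
  have h := cosh_dist_I g
  have h1 : cosh (dist I (g • I)) ≤ exp (dist I (g • I)) := by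
    rw [cosh_eq]
    have : exp (-dist I (g • I)) ≤ exp (dist I (g • I)) :=
      exp_le_exp.2 (by linarith [dist_nonneg (x := I) (y := g • I)])
    linarith
  linarith

theorem le_nsq (g : SG) : exp (dist I (g • I)) ≤ nsq g := by
  have h := cosh_dist_I g
  have h1 : exp (dist I (g • I)) ≤ 2 * cosh (dist I (g • I)) := by
    rw [cosh_eq]
    linarith [exp_pos (-dist I (g • I))]
  linarith

/-- the operator norm is `exp (d / 2)` -/
theorem norm_le (g : SG) (x y : ℝ) : (g 0 0 * x + g 0 1 * y) ^ 2 + (g 1 0 * x + g 1 1 * y) ^ 2 ≤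
    exp (dist I (g • I)) * (x ^ 2 + y ^ 2) := by
  have h := cosh_dist_I g
  have hd := det_eq g
  set D := dist I (g • I) with hD
  have hD0 : 0 ≤ D := dist_nonneg
  set e := exp D with he
  have he0 : 0 < e := exp_pos _
  have he1 : exp (-D) * e = 1 := by rw [he, ← exp_add]; simp
  have he2 : 1 ≤ e := one_le_exp hD0
  rw [cosh_eq] at h
  set p := g 0 0 ^ 2 + g 1 0 ^ 2 with hp
  set q := g 0 0 * g 0 1 + g 1 0 * g 1 1 with hq
  set r := g 0 1 ^ 2 + g 1 1 ^ 2 with hr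
  have hpr : p + r = e + exp (-D) := by
    rw [hp, hr]
    unfold nsq at h
    linarith
  have hdet : p * r - q ^ 2 = 1 := by
    rw [hp, hq, hr]
    have : (g 0 0 ^ 2 + g 1 0 ^ 2) * (g 0 1 ^ 2 + g 1 1 ^ 2) -
      (g 0 0 * g 0 1 + g 1 0 * g 1 1) ^ 2 = (g 0 0 * g 1 1 - g 0 1 * g 1 0) ^ 2 := by ring
    rw [this, hd]
    norm_num
  have hexp : (g 0 0 * x + g 0 1 * y) ^ 2 + (g 1 0 * x + g 1 1 * y) ^ 2 =
      p * x ^ 2 + 2 * q * (x * y) + r * y ^ 2 := by
    rw [hp, hq, hr]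
    ring
  rw [hexp]
  have hprod : (e - p) * (e - r) = q ^ 2 := by nlinarith
  have hem : exp (-D) ≤ 1 := exp_le_one_iff.2 (by linarith)
  have hsum : 0 ≤ (e - p) + (e - r) := by linarith
  have h1 : 0 ≤ e - p := by
    by_contra hcon
    push Not at hcon
    have h2 : 0 < e - r := by linarith
    nlinarith [sq_nonneg q, mul_pos_of_neg_of_neg hcon (neg_lt_zero.2 h2)]
  have h2 : 0 ≤ e - r := by
    by_contra hcon
    push Not at hcon
    have h3 : 0 < e - p := by linarith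
    nlinarith [sq_nonneg q, mul_pos_of_neg_of_neg hcon (neg_lt_zero.2 h3)]
  have h3 : |2 * q * (x * y)| ≤ (e - p) * x ^ 2 + (e - r) * y ^ 2 := by
    apply abs_le_of_sq_le_sq _ (by positivity)
    have h4 : (2 * q * (x * y)) ^ 2 = 4 * ((e - p) * x ^ 2) * ((e - r) * y ^ 2) := by
      have : (2 * q * (x * y)) ^ 2 = 4 * q ^ 2 * (x ^ 2 * y ^ 2) := by ring
      rw [this, ← hprod]
      ring
    rw [h4]
    nlinarith [sq_nonneg ((e - p) * x ^ 2 - (e - r) * y ^ 2)]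
  have h5 := le_abs_self (2 * q * (x * y))
  nlinarith

end Pool.Agent.H99.BC
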