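import Pool.Agent.Helper11.BC.Defs
import Pool.Agent.H99.BC.Hyp

/-!
# BC, block GEO: boundary points, parabolic elements, flips, ahead and behind
-/

set_option autoImplicit false

open Real
open scoped MatrixGroups UpperHalfPlane

namespace Pool.Agent.H99.BC

open Pool.Agent.Helper11.BC

/-- the bracket of two boundary points (depends on the frames by a factor) -/
def br (a b : G) : ℝ := a 0 0 * b 1 0 - a 1 0 * b 0 0

theorem mul00 (a b : G) : (a * b) 0 0 = a 0 0 * b 0 0 + a 0 1 * b 1 0 := by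
  simp [Matrix.mul_apply, Fin.sum_univ_two]

theorem mul01 (a b : G) : (a * b) 0 1 = a 0 0 * b 0 1 + a 0 1 * b 1 1 := by
  simp [Matrix.mul_apply, Fin.sum_univ_two]

theorem mul10 (a b : G) : (a * b) 1 0 = a 1 0 * b 0 0 + a 1 1 * b 1 0 := by
  simp [Matrix.mul_apply, Fin.sum_univ_two]

theorem mul11 (a b : G) : (a * b) 1 1 = a 1 0 * b 0 1 + a 1 1 * b 1 1 := by
  simp [Matrix.mul_apply, Fin.sum_univ_two]

theorem inv00 (a : G) : (a⁻¹) 0 0 = a 1 1 := by
  rw [Matrix.SpecialLinearGroup.SL2_inv_expl]; rfl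

theorem inv01 (a : G) : (a⁻¹) 0 1 = -a 0 1 := by
  rw [Matrix.SpecialLinearGroup.SL2_inv_expl]; rfl

theorem inv10 (a : G) : (a⁻¹) 1 0 = -a 1 0 := by
  rw [Matrix.SpecialLinearGroup.SL2_inv_expl]; rfl

theorem inv11 (a : G) : (a⁻¹) 1 1 = a 0 0 := by
  rw [Matrix.SpecialLinearGroup.SL2_inv_expl]; rfl

theorem inv_mul_10 (a b : G) : (a⁻¹ * b) 1 0 = br a b := by
  rw [mul10, inv10, inv11]
  unfold br
  ring

theorem sameEnd_iff (a b : G) : SameEnd a b ↔ br a b = 0 := by
  unfold SameEnd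
  rw [inv_mul_10]

theorem br_self (a : G) : br a a = 0 := by
  unfold br
  ring

theorem br_comm (a b : G) : br a b = -br b a := by
  unfold br
  ring

theorem br_smul (h a b : G) : br (h * a) (h * b) = br a b := by
  rw [← inv_mul_10, ← inv_mul_10, mul_inv_rev, mul_assoc, inv_mul_cancel_left]

theorem sameEnd_refl (a : G) : SameEnd a a := (sameEnd_iff a a).2 (br_self a)

theorem sameEnd_symm {a b : G} (h : SameEnd a b) : SameEnd b a := by
  rw [sameEnd_iff] at h ⊢
  rw [br_comm, h, neg_zero]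

theorem sameEnd_smul {a b : G} (h : SameEnd a b) (g : G) : SameEnd (g * a) (g * b) := by
  rw [sameEnd_iff] at h ⊢
  rw [br_smul, h]

theorem col_ne (a : G) : ¬ (a 0 0 = 0 ∧ a 1 0 = 0) := by
  rintro ⟨h1, h2⟩
  have h := det_eq a
  rw [h1, h2] at h
  simp at h

/-- three vectors in the plane -/
theorem br_three (a b c : G) : br b c * a 0 0 + br c a * b 0 0 + br a b * c 0 0 = 0 ∧
    br b c * a 1 0 + br c a * b 1 0 + br a b * c 1 0 = 0 := by
  unfold br
  constructor <;> ring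

theorem sameEnd_trans {a b c : G} (h : SameEnd a b) (h' : SameEnd b c) : SameEnd a c := by
  rw [sameEnd_iff] at h h' ⊢
  have h1 := br_three a b c
  rw [h, h', br_comm c a] at h1
  by_contra hne
  apply col_ne b
  constructor
  · have := h1.1
    simp only [zero_mul, zero_add, add_zero, neg_mul, neg_eq_zero, mul_eq_zero] at this
    exact this.resolve_left hne
  · have := h1.2
    simp only [zero_mul, zero_add, add_zero, neg_mul, neg_eq_zero, mul_eq_zero] at this
    exact this.resolve_left hne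

/-- Moving a boundary point inside its class does not change `A`. -/
theorem A_same {N : ℕ} (S : Sys N) (l₁ l₂ : List GP) {g h : G} (s t : ℍ) (hgh : SameEnd g h) :
    S.A (l₁ ++ GP.bdp h :: l₂) s t = S.A (l₁ ++ GP.bdp g :: l₂) s t := by
  have h1 := S.A_par l₁ l₂ g (g⁻¹ * h) s t hgh
  rwa [mul_inv_cancel_left] at h1

/-! ### The parabolic element fixing `b • ∞` and moving `a' • ∞` to `a • ∞` -/

/-- the amount of the translation -/
noncomputable def parc (b a' a : G) : ℝ := -br a' a / (br b a' * br b a)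

/-- translation -/
noncomputable def tr (c : ℝ) : G := ⟨!![1, c; 0, 1], by simp⟩

/-- the parabolic element -/
noncomputable def par (b a' a : G) : G := b * tr (parc b a' a) * b⁻¹

theorem par_mul_self (b a' a : G) : par b a' a * b = b * tr (parc b a' a) := by
  unfold par
  rw [inv_mul_cancel_right]

theorem par_fix (b a' a : G) : SameEnd b (par b a' a * b) := by
  unfold SameEnd
  rw [par_mul_self, inv_mul_cancel_left]
  rfl

theorem par_map {b a' a : G} (h' : ¬ SameEnd b a') (h : ¬ SameEnd b a) :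
    SameEnd a (par b a' a * a') := by
  rw [sameEnd_iff] at h h' ⊢
  have hm : ∀ i : Fin 2, (par b a' a * a') i 0 = b i 0 * ((b⁻¹ * a') 0 0 +
      parc b a' a * (b⁻¹ * a') 1 0) + b i 1 * (b⁻¹ * a') 1 0 := by
    intro i
    unfold par
    rw [mul_assoc, mul_assoc]
    simp only [Matrix.SpecialLinearGroup.coe_mul, Matrix.mul_apply, Fin.sum_univ_two]
    have t00 : (tr (parc b a' a)) 0 0 = 1 := rfl
    have t01 : (tr (parc b a' a)) 0 1 = parc b a' a := rfl
    have t10 : (tr (parc b a' a)) 1 0 = 0 := rfl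
    have t11 : (tr (parc b a' a)) 1 1 = 1 := rfl
    rw [t00, t01, t10, t11]
    ring
  have hd := det_eq b
  have e0 : (par b a' a * a') 0 0 = a' 0 0 + parc b a' a * br b a' * b 0 0 := by
    rw [hm 0, inv_mul_10, mul00 b⁻¹ a', inv00, inv01]
    unfold br
    linear_combination (a' 0 0) * hd
  have e1 : (par b a' a * a') 1 0 = a' 1 0 + parc b a' a * br b a' * b 1 0 := by
    rw [hm 1, inv_mul_10, mul00 b⁻¹ a', inv00, inv01]
    unfold br
    linear_combination (a' 1 0) * hd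
  have e2 : parc b a' a * br b a' * br b a = -br a' a := by
    unfold parc
    field_simp
  unfold br at e2 ⊢
  rw [e0, e1]
  unfold br
  linear_combination -e2

/-! ### Flips -/

theorem flip00 : Helper11.BC.flip 0 0 = 0 := rfl
theorem flip01 : Helper11.BC.flip 0 1 = -1 := rfl
theorem flip10 : Helper11.BC.flip 1 0 = 1 := rfl
theorem flip11 : Helper11.BC.flip 1 1 = 0 := rfl

theorem inv_flip_mul_00 (n g : G) : ((n * Helper11.BC.flip)⁻¹ * g) 0 0 = (n⁻¹ * g) 1 0 := by
  rw [mul_inv_rev, mul_assoc, mul00, inv00, inv01, flip11, flip01]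
  ring

theorem inv_flip_mul_10 (n g : G) : ((n * Helper11.BC.flip)⁻¹ * g) 1 0 = -(n⁻¹ * g) 0 0 := by
  rw [mul_inv_rev, mul_assoc, mul10, inv10, inv11, flip00, flip10]
  ring

theorem ahead_flip (n g : G) (τ : ℝ) : Ahead (n * Helper11.BC.flip) τ g ↔ Behind n (-τ) g := by
  unfold Ahead Behind
  rw [inv_flip_mul_00, inv_flip_mul_10, abs_neg]
  have h := exp_pos τ
  rw [exp_neg, ← div_eq_mul_inv, le_div_iff₀ h]

theorem behind_flip (n g : G) (τ : ℝ) : Behind (n * Helper11.BC.flip) τ g ↔ Ahead n (-τ) g := by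
  unfold Ahead Behind
  rw [inv_flip_mul_00, inv_flip_mul_10, abs_neg]
  have h := exp_pos τ
  rw [exp_neg, ← div_eq_mul_inv, div_le_iff₀ h]

theorem ahead_mono {n g : G} {τ τ' : ℝ} (h : Ahead n τ g) (hτ : τ' ≤ τ) : Ahead n τ' g := by
  unfold Ahead at *
  refine le_trans (mul_le_mul_of_nonneg_left (exp_le_exp.2 hτ) (abs_nonneg _)) h

theorem behind_mono {n g : G} {τ τ' : ℝ} (h : Behind n τ g) (hτ : τ ≤ τ') : Behind n τ' g := by
  unfold Behind at *
  exact h.trans (mul_le_mul_of_nonneg_left (exp_le_exp.2 hτ) (abs_nonneg _))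

theorem ahead_or_behind (n g : G) (τ : ℝ) : Ahead n τ g ∨ Behind n τ g := by
  unfold Ahead Behind
  exact le_total _ _

theorem ahead_smul (h n g : G) (τ : ℝ) : Ahead (h * n) τ (h * g) ↔ Ahead n τ g := by
  unfold Ahead
  rw [mul_inv_rev, mul_assoc, inv_mul_cancel_left]

theorem behind_smul (h n g : G) (τ : ℝ) : Behind (h * n) τ (h * g) ↔ Behind n τ g := by
  unfold Behind
  rw [mul_inv_rev, mul_assoc, inv_mul_cancel_left]

theorem br_frame (n a b : G) : br a b =
    (n⁻¹ * a) 0 0 * (n⁻¹ * b) 1 0 - (n⁻¹ * a) 1 0 * (n⁻¹ * b) 0 0 := by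
  rw [← br_smul n⁻¹]
  rfl

theorem behind_ne {n g : G} {τ : ℝ} (h : Behind n τ g) : (n⁻¹ * g) 1 0 ≠ 0 := by
  intro h0
  unfold Behind at h
  rw [h0, abs_zero, zero_mul, abs_nonpos_iff] at h
  exact col_ne _ ⟨h, h0⟩

theorem ahead_ne {n g : G} {τ : ℝ} (h : Ahead n τ g) : (n⁻¹ * g) 0 0 ≠ 0 := by
  intro h0
  unfold Ahead at h
  rw [h0, abs_zero] at h
  have h1 : |(n⁻¹ * g) 1 0| = 0 := by
    have h2 := exp_pos τ
    have h3 := abs_nonneg ((n⁻¹ * g) 1 0)
    nlinarith
  rw [abs_eq_zero] at h1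
  exact col_ne _ ⟨h0, h1⟩

/-- the bracket of a point behind and a point ahead -/
theorem le_br {n a b : G} {τ₁ τ₂ : ℝ} (hτ : τ₁ + 1 ≤ τ₂) (hb : Behind n τ₁ b)
    (ha : Ahead n τ₂ a) : |(n⁻¹ * b) 1 0| * |(n⁻¹ * a) 0 0| / 2 ≤ |br b a| := by
  rw [br_frame n b a]
  unfold Behind at hb
  unfold Ahead at ha
  set x := (n⁻¹ * b) 0 0
  set y := (n⁻¹ * b) 1 0
  set u := (n⁻¹ * a) 0 0
  set v := (n⁻¹ * a) 1 0
  have h1 : |x * v| ≤ |y| * |u| / 2 := by
    rw [abs_mul]
    have h2 : exp τ₁ * 2 ≤ exp τ₂ := by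
      have h3 : exp (τ₁ + 1) ≤ exp τ₂ := exp_le_exp.2 hτ
      rw [exp_add] at h3
      have h4 := add_one_le_exp (1 : ℝ)
      have h5 := exp_pos τ₁
      nlinarith
    have h6 : |x| * |v| ≤ |y| * exp τ₁ * |v| := mul_le_mul_of_nonneg_right hb (abs_nonneg _)
    have h7 : |y| * (|v| * (exp τ₁ * 2)) ≤ |y| * |u| :=
      mul_le_mul_of_nonneg_left ((mul_le_mul_of_nonneg_left h2 (abs_nonneg _)).trans ha)
        (abs_nonneg _)
    nlinarith
  have h2 : |y * u| ≤ |x * v - y * u| + |x * v| := by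
    have := abs_sub_abs_le_abs_sub (y * u) (x * v)
    rw [abs_sub_comm (y * u)] at this
    linarith
  rw [abs_mul y u] at h2
  linarith

theorem not_sameEnd {n a b : G} {τ₁ τ₂ : ℝ} (hτ : τ₁ < τ₂) (hb : Behind n τ₁ b)
    (ha : Ahead n τ₂ a) : ¬ SameEnd b a := by
  intro h
  rw [sameEnd_iff, br_frame n b a] at h
  have hb0 := behind_ne hb
  have ha0 := ahead_ne ha
  unfold Behind at hb
  unfold Ahead at ha
  set x := (n⁻¹ * b) 0 0
  set y := (n⁻¹ * b) 1 0
  set u := (n⁻¹ * a) 0 0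
  set v := (n⁻¹ * a) 1 0
  have h1 : |x| * |v| = |y| * |u| := by
    rw [← abs_mul, ← abs_mul, sub_eq_zero.1 h]
  have hy : 0 < |y| := abs_pos.2 hb0
  have hu : 0 < |u| := abs_pos.2 ha0
  have hv : 0 ≤ |v| := abs_nonneg v
  have he : exp τ₁ < exp τ₂ := exp_lt_exp.2 hτ
  have h2 : |y| * |u| ≤ |y| * (|v| * exp τ₁) := by
    rw [← h1]
    have := mul_le_mul_of_nonneg_right hb hv
    linarith
  have h3 : |u| ≤ |v| * exp τ₁ := le_of_mul_le_mul_left h2 hy
  rcases hv.eq_or_lt with h4 | h4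
  · rw [← h4] at h3
    linarith
  · have := mul_lt_mul_of_pos_left he h4
    linarith

/-- the bracket of two points ahead -/
theorem br_le_ahead {n a a' : G} {τ : ℝ} (ha : Ahead n τ a) (ha' : Ahead n τ a') :
    |br a' a| * exp τ ≤ 2 * (|(n⁻¹ * a) 0 0| * |(n⁻¹ * a') 0 0|) := by
  rw [br_frame n a' a]
  unfold Ahead at ha ha'
  set x := (n⁻¹ * a') 0 0
  set y := (n⁻¹ * a') 1 0
  set u := (n⁻¹ * a) 0 0
  set v := (n⁻¹ * a) 1 0
  have he := exp_pos τ
  have h1 : |x * v - y * u| ≤ |x| * |v| + |y| * |u| := by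
    rw [← abs_mul, ← abs_mul]
    exact abs_sub _ _
  have h2 := mul_le_mul_of_nonneg_left ha (abs_nonneg x)
  have h3 := mul_le_mul_of_nonneg_left ha' (abs_nonneg u)
  have h4 := mul_le_mul_of_nonneg_right h1 he.le
  nlinarith

/-- the bracket of two points behind -/
theorem br_le_behind {n b b' : G} {τ : ℝ} (hb : Behind n τ b) (hb' : Behind n τ b') :
    |br b' b| ≤ 2 * (|(n⁻¹ * b) 1 0| * |(n⁻¹ * b') 1 0|) * exp τ := by
  rw [br_frame n b' b]
  unfold Behind at hb hb'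
  set x := (n⁻¹ * b') 0 0
  set y := (n⁻¹ * b') 1 0
  set u := (n⁻¹ * b) 0 0
  set v := (n⁻¹ * b) 1 0
  have h1 : |x * v - y * u| ≤ |x| * |v| + |y| * |u| := by
    rw [← abs_mul, ← abs_mul]
    exact abs_sub _ _
  have h2 := mul_le_mul_of_nonneg_left hb (abs_nonneg y)
  have h3 := mul_le_mul_of_nonneg_left hb' (abs_nonneg v)
  nlinarith

end Pool.Agent.H99.BC
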