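import Pool.Agent.H99.BC.Neck

/-!
# BC, block GEO: two frames with close segments
-/

set_option autoImplicit false

open Real
open scoped MatrixGroups UpperHalfPlane

namespace Pool.Agent.H99.BC

open Pool.Agent.Helper11.BC

theorem dist_gam (n : G) (a b : ℝ) : dist (gam n a) (gam n b) = |a - b| := by
  unfold gam
  rw [dist_smul, UpperHalfPlane.dist_of_re_eq (show (vert a).re = (vert b).re from rfl)]
  show dist (log (exp a)) (log (exp b)) = _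
  rw [log_exp, log_exp, Real.dist_eq]

theorem smul_gam (h n : G) (τ : ℝ) : h • gam n τ = gam (h * n) τ := by
  unfold gam
  rw [mul_smul]

/-- the entries of the transition between two frames -/
theorem frame_entries {n n' : G} {τ τ' C₀ : ℝ} (h : dist (gam n τ) (gam n' τ') ≤ C₀) :
    (n⁻¹ * n') 0 0 ^ 2 * exp (τ' - τ) ≤ 2 * exp C₀ ∧
      (n⁻¹ * n') 0 1 ^ 2 * exp (-(τ + τ')) ≤ 2 * exp C₀ ∧
      (n⁻¹ * n') 1 0 ^ 2 * exp (τ + τ') ≤ 2 * exp C₀ ∧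
      (n⁻¹ * n') 1 1 ^ 2 * exp (τ - τ') ≤ 2 * exp C₀ := by
  rw [gam_eq, gam_eq, dist_pos] at h
  obtain ⟨M, hM⟩ : ∃ M, M = n⁻¹ * n' := ⟨_, rfl⟩
  have h0 : (n * dg τ)⁻¹ * (n' * dg τ') = (dg τ)⁻¹ * (M * dg τ') := by
    rw [hM]
    group
  rw [h0] at h
  have h1 := nsq_le ((dg τ)⁻¹ * (M * dg τ'))
  have h2 : exp (dist UpperHalfPlane.I (((dg τ)⁻¹ * (M * dg τ')) • UpperHalfPlane.I)) ≤ exp C₀ :=
    exp_le_exp.2 h
  have d00 : ∀ σ, (dg σ) 0 0 = exp (σ / 2) := fun _ => rfl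
  have d01 : ∀ σ, (dg σ) 0 1 = 0 := fun _ => rfl
  have d10 : ∀ σ, (dg σ) 1 0 = 0 := fun _ => rfl
  have d11 : ∀ σ, (dg σ) 1 1 = exp (-σ / 2) := fun _ => rfl
  unfold nsq at h1
  simp only [mul00, mul01, mul10, mul11, inv00, inv01, inv10, inv11, d00, d01, d10, d11] at h1
  have e1 : exp (τ' - τ) = (exp (-τ / 2) * exp (τ' / 2)) ^ 2 := by
    rw [← exp_add, ← exp_nat_mul]
    congr 1
    push_cast
    ring
  have e2 : exp (-(τ + τ')) = (exp (-τ / 2) * exp (-τ' / 2)) ^ 2 := by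
    rw [← exp_add, ← exp_nat_mul]
    congr 1
    push_cast
    ring
  have e3 : exp (τ + τ') = (exp (τ / 2) * exp (τ' / 2)) ^ 2 := by
    rw [← exp_add, ← exp_nat_mul]
    congr 1
    push_cast
    ring
  have e4 : exp (τ - τ') = (exp (τ / 2) * exp (-τ' / 2)) ^ 2 := by
    rw [← exp_add, ← exp_nat_mul]
    congr 1
    push_cast
    ring
  rw [← hM, e1, e2, e3, e4]
  have f1 := sq_nonneg (M 0 0 * (exp (-τ / 2) * exp (τ' / 2)))
  have f2 := sq_nonneg (M 0 1 * (exp (-τ / 2) * exp (-τ' / 2)))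
  have f3 := sq_nonneg (M 1 0 * (exp (τ / 2) * exp (τ' / 2)))
  have f4 := sq_nonneg (M 1 1 * (exp (τ / 2) * exp (-τ' / 2)))
  have h3 : (M 0 0 * (exp (-τ / 2) * exp (τ' / 2))) ^ 2 +
      (M 0 1 * (exp (-τ / 2) * exp (-τ' / 2))) ^ 2 +
      (M 1 0 * (exp (τ / 2) * exp (τ' / 2))) ^ 2 +
      (M 1 1 * (exp (τ / 2) * exp (-τ' / 2))) ^ 2 ≤ 2 * exp C₀ := by
    refine le_trans (le_of_eq ?_) (h1.trans (mul_le_mul_of_nonneg_left h2 (by norm_num)))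
    ring
  rw [← mul_pow, ← mul_pow, ← mul_pow, ← mul_pow]
  refine ⟨?_, ?_, ?_, ?_⟩ <;> linarith

/-- the lengths of the two segments -/
theorem close_len {n n' : G} {τ₁ τ₂ τ₁' τ₂' C₀ : ℝ} (h : τ₁ ≤ τ₂) (h' : τ₁' ≤ τ₂')
    (h1 : dist (gam n τ₁) (gam n' τ₁') ≤ C₀) (h2 : dist (gam n τ₂) (gam n' τ₂') ≤ C₀) :
    |(τ₂ - τ₁) - (τ₂' - τ₁')| ≤ 2 * C₀ := by
  have e1 : dist (gam n τ₁) (gam n τ₂) = τ₂ - τ₁ := by
    rw [dist_gam, abs_sub_comm, abs_of_nonneg (by linarith)]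
  have e2 : dist (gam n' τ₁') (gam n' τ₂') = τ₂' - τ₁' := by
    rw [dist_gam, abs_sub_comm, abs_of_nonneg (by linarith)]
  have t1 := dist_triangle4 (gam n τ₁) (gam n' τ₁') (gam n' τ₂') (gam n τ₂)
  have t2 := dist_triangle4 (gam n' τ₁') (gam n τ₁) (gam n τ₂) (gam n' τ₂')
  rw [dist_comm (gam n' τ₂') (gam n τ₂)] at t1
  rw [dist_comm (gam n' τ₁') (gam n τ₁)] at t2
  rw [e1, e2] at t1 t2
  rw [abs_le]
  constructor <;> linarith

/-- The numerical consequences for the transition `M = n⁻¹ * n'`. -/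
theorem close_entries {n n' : G} {τ₁ τ₂ τ₁' τ₂' C₀ : ℝ} (h0 : 0 ≤ C₀) (h : τ₁ ≤ τ₂)
    (h' : τ₁' ≤ τ₂') (h1 : dist (gam n τ₁) (gam n' τ₁') ≤ C₀)
    (h2 : dist (gam n τ₂) (gam n' τ₂') ≤ C₀) (hL : 3 * C₀ + 4 ≤ τ₂ - τ₁) :
    |(n⁻¹ * n') 1 0| * exp τ₂ ≤ 4 * exp C₀ * |(n⁻¹ * n') 0 0| ∧
      |(n⁻¹ * n') 1 0| * exp τ₂' ≤ 4 * exp C₀ * |(n⁻¹ * n') 1 1| ∧
      (n⁻¹ * n') 1 1 ≠ 0 := by
  have hlen := abs_le.1 (close_len h h' h1 h2)
  obtain ⟨-, b1, -, -⟩ := frame_entries h1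
  obtain ⟨a2, -, c2, d2⟩ := frame_entries h2
  have hd := det_eq (n⁻¹ * n')
  set α := (n⁻¹ * n') 0 0
  set β := (n⁻¹ * n') 0 1
  set γ := (n⁻¹ * n') 1 0
  set δ := (n⁻¹ * n') 1 1
  -- the product of the off-diagonal entries is small
  have hβγ : |β * γ| ≤ 1 / 2 := by
    apply abs_le_of_sq_le_sq _ (by norm_num)
    have e1 : β ^ 2 ≤ 2 * exp C₀ * exp (τ₁ + τ₁') := by
      have := mul_le_mul_of_nonneg_right b1 (exp_pos (τ₁ + τ₁')).le
      rw [mul_assoc, ← exp_add] at this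
      simpa using this
    have e2 : γ ^ 2 ≤ 2 * exp C₀ * exp (-(τ₂ + τ₂')) := by
      have := mul_le_mul_of_nonneg_right c2 (exp_pos (-(τ₂ + τ₂'))).le
      rw [mul_assoc, ← exp_add] at this
      simpa using this
    have e3 : (β * γ) ^ 2 ≤ (2 * exp C₀ * exp (τ₁ + τ₁')) * (2 * exp C₀ * exp (-(τ₂ + τ₂'))) := by
      rw [mul_pow]
      exact mul_le_mul e1 e2 (sq_nonneg _) (by positivity)
    refine e3.trans ?_
    have e4 : (2 * exp C₀ * exp (τ₁ + τ₁')) * (2 * exp C₀ * exp (-(τ₂ + τ₂'))) =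
        4 * exp (2 * C₀ + (τ₁ + τ₁') - (τ₂ + τ₂')) := by
      have : exp (2 * C₀ + (τ₁ + τ₁') - (τ₂ + τ₂')) =
          exp C₀ * exp C₀ * exp (τ₁ + τ₁') * exp (-(τ₂ + τ₂')) := by
        rw [← exp_add, ← exp_add, ← exp_add]
        congr 1
        ring
      rw [this]
      ring
    rw [e4]
    have e5 : exp (2 * C₀ + (τ₁ + τ₁') - (τ₂ + τ₂')) ≤ exp (-4) := by
      apply exp_le_exp.2
      linarith
    have e6 : exp (-4 : ℝ) ≤ 1 / 16 := by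
      rw [exp_neg, inv_eq_one_div]
      apply one_div_le_one_div_of_le (by norm_num)
      have h3 : exp (4 : ℝ) = exp 1 ^ 4 := by
        rw [← exp_nat_mul]
        norm_num
      rw [h3]
      have h4 := add_one_le_exp (1 : ℝ)
      calc (16 : ℝ) = 2 ^ 4 := by norm_num
        _ ≤ exp 1 ^ 4 := pow_le_pow_left₀ (by norm_num) (by linarith) 4
    linarith
  have hαδ : 1 / 2 ≤ |α| * |δ| := by
    rw [← abs_mul]
    have e1 : α * δ = 1 + β * γ := by linarith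
    rw [e1]
    have := abs_le.1 hβγ
    have := le_abs_self (1 + β * γ)
    linarith
  have hα : 0 < |α| := by
    rcases (abs_nonneg α).eq_or_lt with h3 | h3
    · rw [← h3] at hαδ
      linarith
    · exact h3
  have hδ : 0 < |δ| := by
    rcases (abs_nonneg δ).eq_or_lt with h3 | h3
    · rw [← h3] at hαδ
      linarith
    · exact h3
  have hE := exp_pos C₀
  refine ⟨?_, ?_, abs_pos.1 hδ⟩
  · -- `γ² e^{τ₂+τ₂'} ≤ E`, `δ² e^{τ₂-τ₂'} ≤ E`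
    apply abs_le_of_sq_le_sq' _ (by positivity) |>.2
    have e1 : (|γ| * exp τ₂ * |δ|) ^ 2 ≤ (2 * exp C₀) ^ 2 := by
      have e2 : (|γ| * exp τ₂ * |δ|) ^ 2 =
          (γ ^ 2 * exp (τ₂ + τ₂')) * (δ ^ 2 * exp (τ₂ - τ₂')) := by
        have : exp τ₂ ^ 2 = exp (τ₂ + τ₂') * exp (τ₂ - τ₂') := by
          rw [← exp_add, ← exp_nat_mul]
          congr 1
          push_cast
          ring
        rw [mul_pow, mul_pow, sq_abs, sq_abs, this]
        ring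
      rw [e2, sq (2 * exp C₀)]
      exact mul_le_mul c2 d2 (by positivity) (by positivity)
    have e3 : |γ| * exp τ₂ * |δ| ≤ 2 * exp C₀ := le_of_sq_le_sq e1 (by positivity)
    have e4 : |γ| * exp τ₂ ≤ 4 * exp C₀ * |α| := by
      have e5 : |γ| * exp τ₂ * |δ| ≤ 4 * exp C₀ * (|α| * |δ|) := by
        nlinarith
      have e6 : |γ| * exp τ₂ * |δ| ≤ (4 * exp C₀ * |α|) * |δ| := by linarith
      exact le_of_mul_le_mul_right e6 hδ
    exact pow_le_pow_left₀ (by positivity) e4 2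
  · apply abs_le_of_sq_le_sq' _ (by positivity) |>.2
    have e1 : (|γ| * exp τ₂' * |α|) ^ 2 ≤ (2 * exp C₀) ^ 2 := by
      have e2 : (|γ| * exp τ₂' * |α|) ^ 2 =
          (γ ^ 2 * exp (τ₂ + τ₂')) * (α ^ 2 * exp (τ₂' - τ₂)) := by
        have : exp τ₂' ^ 2 = exp (τ₂ + τ₂') * exp (τ₂' - τ₂) := by
          rw [← exp_add, ← exp_nat_mul]
          congr 1
          push_cast
          ring
        rw [mul_pow, mul_pow, sq_abs, sq_abs, this]
        ring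
      rw [e2, sq (2 * exp C₀)]
      exact mul_le_mul c2 a2 (by positivity) (by positivity)
    have e3 : |γ| * exp τ₂' * |α| ≤ 2 * exp C₀ := le_of_sq_le_sq e1 (by positivity)
    have e4 : |γ| * exp τ₂' ≤ 4 * exp C₀ * |δ| := by
      have e5 : |γ| * exp τ₂' * |α| ≤ 4 * exp C₀ * (|α| * |δ|) := by
        nlinarith
      have e6 : |γ| * exp τ₂' * |α| ≤ (4 * exp C₀ * |δ|) * |α| := by linarith
      exact le_of_mul_le_mul_right e6 hα
    exact pow_le_pow_left₀ (by positivity) e4 2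

private theorem Close_four (C₀ : ℝ) : 4 * exp C₀ ≤ exp (C₀ + 2) := by
  rw [exp_add]
  have h1 : (4 : ℝ) ≤ exp 2 := by
    have h3 : exp (2 : ℝ) = exp 1 ^ 2 := by
      rw [← exp_nat_mul]
      norm_num
    rw [h3]
    have h4 := add_one_le_exp (1 : ℝ)
    calc (4 : ℝ) = 2 ^ 2 := by norm_num
      _ ≤ exp 1 ^ 2 := pow_le_pow_left₀ (by norm_num) (by linarith) 2
  have h2 := exp_pos C₀
  nlinarith

/-- the end of the second line is ahead of the first segment -/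
theorem close_ahead {n n' : G} {τ₁ τ₂ τ₁' τ₂' C₀ : ℝ} (h0 : 0 ≤ C₀) (h : τ₁ ≤ τ₂)
    (h' : τ₁' ≤ τ₂') (h1 : dist (gam n τ₁) (gam n' τ₁') ≤ C₀)
    (h2 : dist (gam n τ₂) (gam n' τ₂') ≤ C₀) (hL : 3 * C₀ + 4 ≤ τ₂ - τ₁) :
    Ahead n (τ₂ - C₀ - 2) n' := by
  obtain ⟨e1, -, -⟩ := close_entries h0 h h' h1 h2 hL
  unfold Ahead
  have e2 : exp (τ₂ - C₀ - 2) * exp (C₀ + 2) = exp τ₂ := by
    rw [← exp_add]
    congr 1
    ring
  have e3 := Close_four C₀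
  have e4 := exp_pos (C₀ + 2)
  have e5 : |(n⁻¹ * n') 1 0| * exp (τ₂ - C₀ - 2) * exp (C₀ + 2) ≤
      |(n⁻¹ * n') 0 0| * exp (C₀ + 2) := by
    rw [mul_assoc, e2]
    refine e1.trans ?_
    rw [mul_comm]
    exact mul_le_mul_of_nonneg_left e3 (abs_nonneg _)
  exact le_of_mul_le_mul_right e5 e4

/-- the beginning of the second line is behind the first segment -/
theorem close_behind {n n' : G} {τ₁ τ₂ τ₁' τ₂' C₀ : ℝ} (h0 : 0 ≤ C₀) (h : τ₁ ≤ τ₂)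
    (h' : τ₁' ≤ τ₂') (h1 : dist (gam n τ₁) (gam n' τ₁') ≤ C₀)
    (h2 : dist (gam n τ₂) (gam n' τ₂') ≤ C₀) (hL : 3 * C₀ + 4 ≤ τ₂ - τ₁) :
    Behind n (τ₁ + C₀ + 2) (n' * Helper11.BC.flip) := by
  have h3 := close_ahead (n := n * Helper11.BC.flip) (n' := n' * Helper11.BC.flip) (τ₁ := -τ₂)
    (τ₂ := -τ₁) (τ₁' := -τ₂') (τ₂' := -τ₁') h0 (by linarith) (by linarith)
    (by rw [gam_flip, gam_flip, neg_neg, neg_neg]; exact h2)
    (by rw [gam_flip, gam_flip, neg_neg, neg_neg]; exact h1) (by linarith)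
  rw [ahead_flip] at h3
  convert h3 using 1
  ring

end Pool.Agent.H99.BC
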