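import Pool.Agent.H99.BC.Lmax

/-!
# BC, block GEO: displacements of parabolic elements
-/

set_option autoImplicit false

open Real
open scoped MatrixGroups UpperHalfPlane

namespace Pool.Agent.H99.BC

open Pool.Agent.Helper11.BC

/-- the diagonal element -/
noncomputable def dg (τ : ℝ) : G := ⟨!![exp (τ / 2), 0; 0, exp (-τ / 2)], by
  rw [Matrix.det_fin_two_of, ← exp_add]
  simp [neg_div]⟩

theorem dg_smul_I (τ : ℝ) : dg τ • UpperHalfPlane.I = vert τ := by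
  have h1 : (dg τ) 0 0 = exp (τ / 2) := rfl
  have h2 : (dg τ) 0 1 = 0 := rfl
  have h3 : (dg τ) 1 0 = 0 := rfl
  have h4 : (dg τ) 1 1 = exp (-τ / 2) := rfl
  apply UpperHalfPlane.ext
  apply Complex.ext
  · show (dg τ • UpperHalfPlane.I : ℍ).re = 0
    rw [re_smul_I, h1, h2, h3]
    simp
  · show (dg τ • UpperHalfPlane.I : ℍ).im = exp τ
    rw [im_smul_I, h3, h4, ← exp_nat_mul]
    have h5 : ((2 : ℕ) : ℝ) * (-τ / 2) = -τ := by
      push_cast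
      ring
    rw [h5, exp_neg]
    simp

theorem gam_eq (n : G) (τ : ℝ) : gam n τ = pos (n * dg τ) := by
  unfold gam pos
  rw [mul_smul, dg_smul_I]

theorem dist_pos (g h : G) : dist (pos g) (pos h) = dist UpperHalfPlane.I ((g⁻¹ * h) • UpperHalfPlane.I) :=
  dist_smul_smul g h

theorem smul_pos (g h : G) : g • pos h = pos (g * h) := by
  unfold pos
  rw [mul_smul]

theorem inv_dg_00 (n g : G) (τ : ℝ) : ((n * dg τ)⁻¹ * g) 0 0 = exp (-τ / 2) * (n⁻¹ * g) 0 0 := by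
  rw [mul_inv_rev, mul_assoc, mul00, inv00, inv01]
  show exp (-τ / 2) * _ + -0 * _ = _
  ring

theorem inv_dg_10 (n g : G) (τ : ℝ) : ((n * dg τ)⁻¹ * g) 1 0 = exp (τ / 2) * (n⁻¹ * g) 1 0 := by
  rw [mul_inv_rev, mul_assoc, mul10, inv10, inv11]
  show -0 * _ + exp (τ / 2) * _ = _
  ring

/-- the displacement of a point by the parabolic element -/
theorem disp_pos (k b a' a : G) : dist (pos k) (par b a' a • pos k) ≤
    |parc b a' a| * ((k⁻¹ * b) 0 0 ^ 2 + (k⁻¹ * b) 1 0 ^ 2) := by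
  obtain ⟨c, hc⟩ : ∃ c, c = parc b a' a := ⟨_, rfl⟩
  obtain ⟨m, hm⟩ : ∃ m, m = k⁻¹ * b := ⟨_, rfl⟩
  obtain ⟨M, hM⟩ : ∃ M, M = m * tr c * m⁻¹ := ⟨_, rfl⟩
  have h0 : k⁻¹ * (par b a' a * k) = M := by
    rw [hM, hm, hc]
    unfold par
    group
  rw [smul_pos, dist_pos, h0, ← hc, ← hm]
  have hd := det_eq m
  have t00 : (tr c) 0 0 = 1 := rfl
  have t01 : (tr c) 0 1 = c := rfl
  have t10 : (tr c) 1 0 = 0 := rfl
  have t11 : (tr c) 1 1 = 1 := rfl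
  have e00 : M 0 0 = 1 - c * (m 0 0 * m 1 0) := by
    rw [hM]
    simp only [mul00, mul01, inv00, inv10, t00, t01, t10, t11]
    linear_combination hd
  have e01 : M 0 1 = c * m 0 0 ^ 2 := by
    rw [hM]
    simp only [mul00, mul01, inv01, inv11, t00, t01, t10, t11]
    ring
  have e10 : M 1 0 = -(c * m 1 0 ^ 2) := by
    rw [hM]
    simp only [mul10, mul11, inv00, inv10, t00, t01, t10, t11]
    ring
  have e11 : M 1 1 = 1 + c * (m 0 0 * m 1 0) := by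
    rw [hM]
    simp only [mul10, mul11, inv01, inv11, t00, t01, t10, t11]
    linear_combination hd
  have h1 := four_sinh_sq M
  rw [e00, e01, e10, e11] at h1
  have h2 : 0 ≤ dist UpperHalfPlane.I (M • UpperHalfPlane.I) / 2 := by positivity
  have h3 : dist UpperHalfPlane.I (M • UpperHalfPlane.I) / 2 ≤
      sinh (dist UpperHalfPlane.I (M • UpperHalfPlane.I) / 2) := self_le_sinh_iff.2 h2
  have h4 : 2 * sinh (dist UpperHalfPlane.I (M • UpperHalfPlane.I) / 2) ≤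
      |c| * (m 0 0 ^ 2 + m 1 0 ^ 2) := by
    apply abs_le_of_sq_le_sq' _ (by positivity) |>.2
    rw [h1, mul_pow, sq_abs]
    apply le_of_eq
    ring
  linarith

/-- the amount of the translation in a frame -/
theorem parc_le {n a a' b : G} {τ₁ τ₂ : ℝ} (hτ : τ₁ + 1 ≤ τ₂) (hb : Behind n τ₁ b)
    (ha : Ahead n τ₂ a) (ha' : Ahead n τ₂ a') :
    |parc b a' a| * (n⁻¹ * b) 1 0 ^ 2 ≤ 8 * exp (-τ₂) := by
  have h1 := le_br hτ hb ha
  have h2 := le_br hτ hb ha'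
  have h3 := br_le_ahead ha ha'
  have hy : 0 < |(n⁻¹ * b) 1 0| := abs_pos.2 (behind_ne hb)
  have hu : 0 < |(n⁻¹ * a) 0 0| := abs_pos.2 (ahead_ne ha)
  have hu' : 0 < |(n⁻¹ * a') 0 0| := abs_pos.2 (ahead_ne ha')
  rw [← sq_abs ((n⁻¹ * b) 1 0)]
  set y := |(n⁻¹ * b) 1 0|
  set u := |(n⁻¹ * a) 0 0|
  set u' := |(n⁻¹ * a') 0 0|
  have hba : 0 < |br b a| := lt_of_lt_of_le (by positivity) h1
  have hba' : 0 < |br b a'| := lt_of_lt_of_le (by positivity) h2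
  unfold parc
  rw [abs_div, abs_neg, abs_mul, div_mul_eq_mul_div, div_le_iff₀ (by positivity), exp_neg]
  have he := exp_pos τ₂
  have h4 : |br a' a| ≤ 2 * (u * u') / exp τ₂ := by
    rw [le_div_iff₀ he]
    exact h3
  have h5 : y * u' / 2 * (y * u / 2) ≤ |br b a'| * |br b a| :=
    mul_le_mul h2 h1 (by positivity) (by positivity)
  calc |br a' a| * y ^ 2 ≤ 2 * (u * u') / exp τ₂ * y ^ 2 :=
        mul_le_mul_of_nonneg_right h4 (by positivity)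
    _ = 8 * (exp τ₂)⁻¹ * (y * u' / 2 * (y * u / 2)) := by
        field_simp
        ring
    _ ≤ 8 * (exp τ₂)⁻¹ * (|br b a'| * |br b a|) :=
        mul_le_mul_of_nonneg_left h5 (by positivity)

/-- the displacement of a point which is not too far from the point `b • ∞` -/
theorem disp_of_le {n a a' b k : G} {τ₁ τ₂ w : ℝ} (hτ : τ₁ + 1 ≤ τ₂) (hb : Behind n τ₁ b)
    (ha : Ahead n τ₂ a) (ha' : Ahead n τ₂ a')
    (hk : (k⁻¹ * b) 0 0 ^ 2 + (k⁻¹ * b) 1 0 ^ 2 ≤ w * (n⁻¹ * b) 1 0 ^ 2) :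
    dist (pos k) (par b a' a • pos k) ≤ 8 * w * exp (-τ₂) := by
  have h1 := disp_pos k b a' a
  have h2 := parc_le hτ hb ha ha'
  have hy : 0 < (n⁻¹ * b) 1 0 ^ 2 := by
    have := behind_ne hb
    positivity
  have hw : 0 ≤ w := by
    by_contra hcon
    push Not at hcon
    have h3 : 0 ≤ (k⁻¹ * b) 0 0 ^ 2 + (k⁻¹ * b) 1 0 ^ 2 := by positivity
    nlinarith
  refine h1.trans ((mul_le_mul_of_nonneg_left hk (abs_nonneg _)).trans ?_)
  have h4 := mul_le_mul_of_nonneg_left h2 hw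
  linarith

/-- displacement of the points of the line -/
theorem disp_gam {n a a' b : G} {τ₁ τ₂ τ : ℝ} (hτ : τ₁ + 1 ≤ τ₂) (h1 : τ₁ ≤ τ)
    (hb : Behind n τ₁ b) (ha : Ahead n τ₂ a) (ha' : Ahead n τ₂ a') :
    dist (gam n τ) (par b a' a • gam n τ) ≤ 16 * exp (τ - τ₂) := by
  rw [gam_eq]
  have h2 : ((n * dg τ)⁻¹ * b) 0 0 ^ 2 + ((n * dg τ)⁻¹ * b) 1 0 ^ 2 ≤
      2 * exp τ * (n⁻¹ * b) 1 0 ^ 2 := by
    rw [inv_dg_00, inv_dg_10]
    have h3 := behind_mono hb h1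
    unfold Behind at h3
    have h4 : (n⁻¹ * b) 0 0 ^ 2 ≤ (n⁻¹ * b) 1 0 ^ 2 * exp τ ^ 2 := by
      have := pow_le_pow_left₀ (abs_nonneg _) h3 2
      rwa [mul_pow, sq_abs, sq_abs] at this
    have h5 : exp (-τ / 2) ^ 2 * exp τ ^ 2 = exp τ := by
      rw [← exp_nat_mul, ← exp_nat_mul, ← exp_add]
      congr 1
      push_cast
      ring
    have h6 : exp (τ / 2) ^ 2 = exp τ := by
      rw [← exp_nat_mul]
      congr 1
      push_cast
      ring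
    calc (exp (-τ / 2) * (n⁻¹ * b) 0 0) ^ 2 + (exp (τ / 2) * (n⁻¹ * b) 1 0) ^ 2
        = exp (-τ / 2) ^ 2 * (n⁻¹ * b) 0 0 ^ 2 + exp (τ / 2) ^ 2 * (n⁻¹ * b) 1 0 ^ 2 := by ring
      _ ≤ exp (-τ / 2) ^ 2 * ((n⁻¹ * b) 1 0 ^ 2 * exp τ ^ 2) +
          exp (τ / 2) ^ 2 * (n⁻¹ * b) 1 0 ^ 2 := by
          gcongr
      _ = (exp (-τ / 2) ^ 2 * exp τ ^ 2) * (n⁻¹ * b) 1 0 ^ 2 +
          exp (τ / 2) ^ 2 * (n⁻¹ * b) 1 0 ^ 2 := by ring
      _ = 2 * exp τ * (n⁻¹ * b) 1 0 ^ 2 := by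
          rw [h5, h6]
          ring
  have h7 := disp_of_le hτ hb ha ha' h2
  refine h7.trans (le_of_eq ?_)
  rw [sub_eq_add_neg, exp_add]
  ring

theorem gam_flip (n : G) (τ : ℝ) : gam (n * Helper11.BC.flip) τ = gam n (-τ) := by
  rw [gam_eq, gam_eq]
  have h0 : dist (pos (n * Helper11.BC.flip * dg τ)) (pos (n * dg (-τ))) = 0 := by
    rw [dist_pos]
    have h1 := four_sinh_sq ((n * Helper11.BC.flip * dg τ)⁻¹ * (n * dg (-τ)))
    have h2 : (n * Helper11.BC.flip * dg τ)⁻¹ * (n * dg (-τ)) =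
        (dg τ)⁻¹ * (Helper11.BC.flip⁻¹ * dg (-τ)) := by group
    have d00 : ∀ σ, (dg σ) 0 0 = exp (σ / 2) := fun _ => rfl
    have d01 : ∀ σ, (dg σ) 0 1 = 0 := fun _ => rfl
    have d10 : ∀ σ, (dg σ) 1 0 = 0 := fun _ => rfl
    have d11 : ∀ σ, (dg σ) 1 1 = exp (-σ / 2) := fun _ => rfl
    rw [h2] at h1 ⊢
    simp only [mul00, mul01, mul10, mul11, inv00, inv01, inv10, inv11, flip00, flip01, flip10,
      flip11, d00, d01, d10, d11, neg_neg] at h1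
    have h4 : (2 * sinh (dist UpperHalfPlane.I (((dg τ)⁻¹ * (Helper11.BC.flip⁻¹ * dg (-τ))) •
        UpperHalfPlane.I) / 2)) ^ 2 = 0 := by
      rw [h1]
      ring
    have h5 := pow_eq_zero_iff (two_ne_zero) |>.1 h4
    have h6 : sinh (dist UpperHalfPlane.I (((dg τ)⁻¹ * (Helper11.BC.flip⁻¹ * dg (-τ))) •
        UpperHalfPlane.I) / 2) = 0 := by linarith
    rw [sinh_eq_zero] at h6
    linarith
  exact dist_eq_zero.1 h0

/-- displacement of the points of the line, mirror image -/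
theorem disp_gam' {n a b b' : G} {τ₁ τ₂ τ : ℝ} (hτ : τ₁ + 1 ≤ τ₂) (h1 : τ ≤ τ₂)
    (ha : Ahead n τ₂ a) (hb : Behind n τ₁ b) (hb' : Behind n τ₁ b') :
    dist (gam n τ) (par a b' b • gam n τ) ≤ 16 * exp (τ₁ - τ) := by
  have h := disp_gam (n := n * Helper11.BC.flip) (a := b) (a' := b') (b := a) (τ₁ := -τ₂)
    (τ₂ := -τ₁) (τ := -τ) (by linarith) (by linarith)
    ((behind_flip n a (-τ₂)).2 (by rwa [neg_neg])) ((ahead_flip n b (-τ₁)).2 (by rwa [neg_neg]))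
    ((ahead_flip n b' (-τ₁)).2 (by rwa [neg_neg]))
  rw [gam_flip, neg_neg] at h
  refine h.trans (le_of_eq ?_)
  congr 2
  ring

end Pool.Agent.H99.BC
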