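import Pool.Agent.H99.BC.Base

/-!
# BC, block GEO: maximum and minimum of a list
-/

set_option autoImplicit false

namespace Pool.Agent.H99.BC

open Pool.Agent.Helper11.BC

theorem lmax_mem {l : List ℝ} (hl : l ≠ []) : lmax l ∈ l := by
  induction l with
  | nil => exact absurd rfl hl
  | cons x l ih =>
    rcases l with _ | ⟨y, l⟩
    · simp [lmax]
    · rw [lmax]
      rcases max_choice x (lmax (y :: l)) with h | h
      · rw [h]
        exact List.mem_cons_self
      · rw [h]
        exact List.mem_cons_of_mem _ (ih (by simp))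

theorem lmin_mem {l : List ℝ} (hl : l ≠ []) : lmin l ∈ l := by
  induction l with
  | nil => exact absurd rfl hl
  | cons x l ih =>
    rcases l with _ | ⟨y, l⟩
    · simp [lmin]
    · rw [lmin]
      rcases min_choice x (lmin (y :: l)) with h | h
      · rw [h]
        exact List.mem_cons_self
      · rw [h]
        exact List.mem_cons_of_mem _ (ih (by simp))

theorem le_lmax {l : List ℝ} {x : ℝ} (hx : x ∈ l) : x ≤ lmax l := by
  induction l with
  | nil => simp at hx
  | cons y l ih =>
    rcases l with _ | ⟨z, l⟩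
    · rw [List.mem_singleton] at hx
      rw [hx]
      exact le_rfl
    · rw [lmax]
      rcases List.mem_cons.1 hx with h | h
      · rw [h]
        exact le_max_left _ _
      · exact (ih h).trans (le_max_right _ _)

theorem lmin_le {l : List ℝ} {x : ℝ} (hx : x ∈ l) : lmin l ≤ x := by
  induction l with
  | nil => simp at hx
  | cons y l ih =>
    rcases l with _ | ⟨z, l⟩
    · rw [List.mem_singleton] at hx
      rw [hx]
      exact le_rfl
    · rw [lmin]
      rcases List.mem_cons.1 hx with h | h
      · rw [h]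
        exact min_le_left _ _
      · exact (min_le_right _ _).trans (ih h)

theorem lmax_le {l : List ℝ} (hl : l ≠ []) {c : ℝ} (h : ∀ x ∈ l, x ≤ c) : lmax l ≤ c :=
  h _ (lmax_mem hl)

theorem le_lmin {l : List ℝ} (hl : l ≠ []) {c : ℝ} (h : ∀ x ∈ l, c ≤ x) : c ≤ lmin l :=
  h _ (lmin_mem hl)

/-- a map which is increasing on the list commutes with the maximum -/
theorem lmax_map {T : Type*} {l : List T} (hl : l ≠ []) (f g : T → ℝ)
    (h : ∀ x ∈ l, ∀ y ∈ l, f x ≤ f y → g x ≤ g y) :
    ∃ x ∈ l, lmax (l.map f) = f x ∧ lmax (l.map g) = g x := by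
  obtain ⟨x, hx, hfx⟩ := List.mem_map.1 (lmax_mem (l := l.map f) (by simpa using hl))
  refine ⟨x, hx, hfx.symm, le_antisymm ?_ (le_lmax (List.mem_map_of_mem hx))⟩
  apply lmax_le (by simpa using hl)
  intro z hz
  obtain ⟨y, hy, rfl⟩ := List.mem_map.1 hz
  apply h y hy x hx
  rw [hfx]
  exact le_lmax (List.mem_map_of_mem hy)

/-- a map which is increasing on the list commutes with the minimum -/
theorem lmin_map {T : Type*} {l : List T} (hl : l ≠ []) (f g : T → ℝ)
    (h : ∀ x ∈ l, ∀ y ∈ l, f x ≤ f y → g x ≤ g y) :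
    ∃ x ∈ l, lmin (l.map f) = f x ∧ lmin (l.map g) = g x := by
  obtain ⟨x, hx, hfx⟩ := List.mem_map.1 (lmin_mem (l := l.map f) (by simpa using hl))
  refine ⟨x, hx, hfx.symm, le_antisymm (lmin_le (List.mem_map_of_mem hx)) ?_⟩
  apply le_lmin (by simpa using hl)
  intro z hz
  obtain ⟨y, hy, rfl⟩ := List.mem_map.1 hz
  apply h x hx y hy
  rw [hfx]
  exact lmin_le (List.mem_map_of_mem hy)

end Pool.Agent.H99.BC
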