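import Pool.Agent.H99.BC.Neck

/-!
# BC, block GEO: transport of the functions `F` by an element of the group
-/

set_option autoImplicit false

open Real
open scoped MatrixGroups UpperHalfPlane

namespace Pool.Agent.H99.BC

open Pool.Agent.Helper11.BC

/-- `y` is the image of `x` under `p`, up to the position of the interior points -/
def Mv (p : G) : GP → GP → Prop
  | .int _, .int _ => True
  | .bdp k, .bdp k' => SameEnd k' (p * k)
  | _, _ => False

/-- the displacement of an interior point -/
noncomputable def mv (p : G) : GP → GP → ℝ
  | .int k, .int k' => dist (pos k') (p • pos k)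
  | _, _ => 0

theorem mv_nonneg (p : G) (x y : GP) : 0 ≤ mv p x y := by
  unfold mv
  split <;> positivity

theorem abs_F_le {N : ℕ} (S : Sys N) {X : List GP} (hX : X.length = N) (s t : ℍ) :
    |S.F X s t| ≤ S.C + S.C * dist s t := by
  have h1 := S.FA X s t hX
  have h2 := S.A_growth X s t hX
  have h3 : |S.F X s t| ≤ |S.F X s t - S.A X s t| + |S.A X s t| := by
    have := abs_add_le (S.F X s t - S.A X s t) (S.A X s t)
    rwa [sub_add_cancel] at this
  linarith

private theorem Move_A {N : ℕ} (S : Sys N) (p : G) (s t : ℍ) (X X' : List GP)
    (h : List.Forall₂ (Mv p) X X') : ∀ Y : List GP, (Y ++ X).length = N →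
    |S.A (Y ++ X.map (p • ·)) s t - S.A (Y ++ X') s t| ≤
      S.C * dist s t * (List.zipWith (mv p) X X').sum := by
  induction h with
  | nil =>
    intro Y _
    simp
  | @cons x y X X' hxy hXX ih =>
    intro Y hY
    rw [List.map_cons, List.zipWith_cons_cons, List.sum_cons]
    have hl : (Y ++ x :: X').length = N := by
      rw [List.length_append, List.length_cons, ← hXX.length_eq]
      rw [List.length_append, List.length_cons] at hY
      exact hY
    have h1 : |S.A (Y ++ (p • x) :: X.map (p • ·)) s t - S.A (Y ++ (p • x) :: X') s t| ≤
        S.C * dist s t * (List.zipWith (mv p) X X').sum := by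
      have := ih (Y ++ [p • x]) (by
        rw [List.length_append, List.length_append, List.length_singleton]
        rw [List.length_append, List.length_cons] at hY
        omega)
      rwa [List.append_assoc, List.append_assoc, List.singleton_append,
        List.singleton_append] at this
    have h2 : |S.A (Y ++ (p • x) :: X') s t - S.A (Y ++ y :: X') s t| ≤
        S.C * dist s t * mv p x y := by
      cases x with
      | int k =>
        cases y with
        | int k' =>
          have h3 := S.A_lip Y X' (p * k) k' s t (by
            rw [List.length_append, List.length_cons] at hl ⊢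
            exact hl)
          have h4 : dist (pos (p * k)) (pos k') = mv p (GP.int k) (GP.int k') := by
            show _ = dist (pos k') (p • pos k)
            rw [smul_pos, dist_comm]
          rw [h4] at h3
          exact h3
        | bdp k' => exact absurd hxy (by simp [Mv])
      | bdp k =>
        cases y with
        | int k' => exact absurd hxy (by simp [Mv])
        | bdp k' =>
          have h3 : SameEnd k' (p * k) := hxy
          have h4 := A_same S Y X' s t h3
          have h5 : p • GP.bdp k = GP.bdp (p * k) := rfl
          have h6 : mv p (GP.bdp k) (GP.bdp k') = 0 := rfl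
          rw [h5, h4, sub_self, abs_zero, h6, mul_zero]
    calc |S.A (Y ++ (p • x) :: X.map (p • ·)) s t - S.A (Y ++ y :: X') s t|
        ≤ |S.A (Y ++ (p • x) :: X.map (p • ·)) s t - S.A (Y ++ (p • x) :: X') s t| +
          |S.A (Y ++ (p • x) :: X') s t - S.A (Y ++ y :: X') s t| := abs_sub_le _ _ _
      _ ≤ S.C * dist s t * (List.zipWith (mv p) X X').sum + S.C * dist s t * mv p x y :=
          add_le_add h1 h2
      _ = S.C * dist s t * (mv p x y + (List.zipWith (mv p) X X').sum) := by ring

/-- Transport: `F` changes by a bounded amount if all points are moved by `p`, up to small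
displacements of the interior points. -/
theorem transport {N : ℕ} (S : Sys N) (p : G) (X X' : List GP) (s t : ℍ) (hX : X.length = N)
    (h : List.Forall₂ (Mv p) X X') :
    |S.F X s t - S.F X' s t| ≤ 4 * S.C + S.C * (dist s (p • s) + dist t (p • t)) +
      S.C * dist s t * (List.zipWith (mv p) X X').sum := by
  have hX' : X'.length = N := by rw [← h.length_eq, hX]
  have hpX : (X.map (p • ·)).length = N := by rw [List.length_map, hX]
  have h1 : S.F X s t = S.F (X.map (p • ·)) (p • s) (p • t) := (S.F_inv p X s t).symm
  have h2 := S.F_add (X.map (p • ·)) (p • s) s t hpX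
  have h3 := S.F_add (X.map (p • ·)) (p • s) t (p • t) hpX
  have h4 := abs_F_le S hpX (p • s) s
  have h5 := abs_F_le S hpX t (p • t)
  have h6 := S.FA (X.map (p • ·)) s t hpX
  have h7 := S.FA X' s t hX'
  have h8 := Move_A S p s t X X' h [] (by simpa using hX)
  simp only [List.nil_append] at h8
  rw [dist_comm (p • s) s] at h4
  have e : S.F X s t - S.F X' s t = S.F (X.map (p • ·)) (p • s) s +
      S.F (X.map (p • ·)) t (p • t) + (S.F (X.map (p • ·)) s t - S.A (X.map (p • ·)) s t) +
      (S.A (X.map (p • ·)) s t - S.A X' s t) - (S.F X' s t - S.A X' s t) := by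
    rw [h1, ← h3, ← h2]
    ring
  rw [e]
  rw [abs_le] at h4 h5 h6 h7 h8 ⊢
  constructor <;> nlinarith

end Pool.Agent.H99.BC
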