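import Pool.Agent.H99.BC.Root

/-!
# BC, block GEO: the middle of the neck
-/

set_option autoImplicit false

open Real
open scoped MatrixGroups UpperHalfPlane

namespace Pool.Agent.H99.BC

open Pool.Agent.Helper11.BC

private theorem Neck_log {n a b a₀ b₀ : G} {τ₁ τ₂ : ℝ} (hτ : τ₁ + 1 ≤ τ₂) (ha : Ahead n τ₂ a)
    (ha₀ : Ahead n τ₂ a₀) (hb : Behind n τ₁ b) (hb₀ : Behind n τ₁ b₀) (haa : br a₀ a ≠ 0)
    (hbb : br b b₀ ≠ 0) :
    τ₂ - τ₁ - 3 ≤ log |xc (lineBA a₀ b₀) a| - log |xc (lineBA a₀ b₀) b| := by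
  have h1 := le_br hτ hb₀ ha
  have h2 := le_br hτ hb ha₀
  have h3 := le_br hτ hb₀ ha₀
  have h4 := br_le_ahead ha ha₀
  have h5 := br_le_behind hb₀ hb
  have hy : 0 < |(n⁻¹ * b) 1 0| := abs_pos.2 (behind_ne hb)
  have hy₀ : 0 < |(n⁻¹ * b₀) 1 0| := abs_pos.2 (behind_ne hb₀)
  have hu : 0 < |(n⁻¹ * a) 0 0| := abs_pos.2 (ahead_ne ha)
  have hu₀ : 0 < |(n⁻¹ * a₀) 0 0| := abs_pos.2 (ahead_ne ha₀)
  have p1 : 0 < |br b₀ a| := lt_of_lt_of_le (by positivity) h1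
  have p2 : 0 < |br b a₀| := lt_of_lt_of_le (by positivity) h2
  have p3 : 0 < |br b₀ a₀| := lt_of_lt_of_le (by positivity) h3
  have p4 : 0 < |br a₀ a| := abs_pos.2 haa
  have p5 : 0 < |br b b₀| := abs_pos.2 hbb
  have q1 : |br a b₀| = |br b₀ a| := by rw [br_comm, abs_neg]
  have q2 : |br a₀ b| = |br b a₀| := by rw [br_comm, abs_neg]
  have q3 : |br a₀ b₀| = |br b₀ a₀| := by rw [br_comm, abs_neg]
  have h0 : br a₀ b₀ ≠ 0 := by
    rw [← abs_pos, q3]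
    exact p3
  rw [xc_lineBA h0, xc_lineBA h0, abs_div, abs_div, abs_mul, abs_mul, q1, q2, q3,
    log_div p1.ne' (by positivity), log_div p5.ne' (by positivity), log_mul p3.ne' p4.ne',
    log_mul p3.ne' p2.ne']
  have e1 : log (|(n⁻¹ * b₀) 1 0| * |(n⁻¹ * a) 0 0| / 2) ≤ log |br b₀ a| :=
    log_le_log (by positivity) h1
  have e2 : log (|(n⁻¹ * b) 1 0| * |(n⁻¹ * a₀) 0 0| / 2) ≤ log |br b a₀| :=
    log_le_log (by positivity) h2
  have e4 : log (|br a₀ a| * exp τ₂) ≤ log (2 * (|(n⁻¹ * a) 0 0| * |(n⁻¹ * a₀) 0 0|)) :=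
    log_le_log (by positivity) h4
  have e5 : log |br b b₀| ≤ log (2 * (|(n⁻¹ * b₀) 1 0| * |(n⁻¹ * b) 1 0|) * exp τ₁) :=
    log_le_log p5 h5
  rw [log_div (by positivity) (by norm_num), log_mul hy₀.ne' hu.ne'] at e1
  rw [log_div (by positivity) (by norm_num), log_mul hy.ne' hu₀.ne'] at e2
  rw [log_mul p4.ne' (exp_pos _).ne', log_exp, log_mul (by norm_num) (by positivity),
    log_mul hu.ne' hu₀.ne'] at e4
  rw [log_mul (by positivity) (exp_pos _).ne', log_exp, log_mul (by norm_num) (by positivity),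
    log_mul hy₀.ne' hy.ne'] at e5
  have hlog2 : log 2 ≤ 3 / 4 := by
    have := Real.log_two_lt_d9
    linarith
  linarith

/-- the length of the neck -/
theorem neck_len {n a₀ b₀ : G} {A B : List G} {τ₁ τ₂ : ℝ} (hτ : τ₁ + 1 ≤ τ₂)
    (hG : Generic (a₀ :: A ++ b₀ :: B)) (hA : A ≠ []) (hB : B ≠ [])
    (hA' : ∀ a ∈ a₀ :: A, Ahead n τ₂ a) (hB' : ∀ b ∈ b₀ :: B, Behind n τ₁ b) :
    τ₂ - τ₁ - 3 ≤ neckHi (a₀ :: A) (b₀ :: B) - neckLo (a₀ :: A) (b₀ :: B) := by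
  unfold neckHi neckLo
  simp only [List.headD_cons, List.tail_cons]
  obtain ⟨a, ha, hae⟩ := List.mem_map.1
    (lmin_mem (l := A.map fun a => log |xc (lineBA a₀ b₀) a|) (by simpa using hA))
  obtain ⟨b, hb, hbe⟩ := List.mem_map.1
    (lmax_mem (l := B.map fun b => log |xc (lineBA a₀ b₀) b|) (by simpa using hB))
  rw [← hae, ← hbe]
  unfold Generic at hG
  apply Neck_log hτ (hA' a (by simp [ha])) (hA' a₀ (by simp)) (hB' b (by simp [hb]))
    (hB' b₀ (by simp))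
  · intro h
    exact (List.pairwise_cons.1 hG).1 a (by simp [ha]) ((sameEnd_iff _ _).2 h)
  · intro h
    have h3 := (List.pairwise_append.1 hG).2.1
    exact (List.pairwise_cons.1 h3).1 b hb (sameEnd_symm ((sameEnd_iff _ _).2 h))

theorem pos_neckMid (a₀ b₀ : G) (A B : List G) : pos (neckMid (a₀ :: A) (b₀ :: B)) =
    gam (lineBA a₀ b₀) ((neckLo (a₀ :: A) (b₀ :: B) + neckHi (a₀ :: A) (b₀ :: B)) / 2) := by
  unfold neckMid pos gam
  rw [mul_smul, UpperHalfPlane.toSL2R_smul_I]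
  rfl

private theorem Neck_exp {x y : ℝ} (h : x - 3 ≤ y) : 16 * exp (-(y / 2)) ≤ 80 * exp (-x / 2) := by
  have h1 : exp (-(y / 2)) ≤ exp (3 / 2) * exp (-x / 2) := by
    rw [← exp_add]
    apply exp_le_exp.2
    linarith
  have h2 : exp (3 / 2) ≤ 5 := by
    have h3 : exp (3 / 2) ^ 2 ≤ 5 ^ 2 := by
      rw [← exp_nat_mul]
      have h4 : ((2 : ℕ) : ℝ) * (3 / 2) = 3 := by norm_num
      rw [h4]
      have h5 : exp (3 : ℝ) = exp 1 ^ 3 := by
        rw [← exp_nat_mul]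
        norm_num
      rw [h5]
      have h6 := exp_one_lt_d9
      have h7 := exp_pos (1 : ℝ)
      calc exp 1 ^ 3 ≤ (2.7182818286 : ℝ) ^ 3 := pow_le_pow_left₀ h7.le h6.le 3
        _ ≤ 5 ^ 2 := by norm_num
    exact le_of_sq_le_sq h3 (by norm_num)
  have h8 := exp_pos (-x / 2)
  nlinarith

/-- displacement of the middle of the neck -/
theorem disp_neck {n a a' b : G} {A B : List G} {τ₁ τ₂ : ℝ} (hτ : τ₁ + 4 ≤ τ₂)
    (hG : Generic (A ++ B)) (hA : 2 ≤ A.length) (hB : 2 ≤ B.length)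
    (hA' : ∀ a ∈ A, Ahead n τ₂ a) (hB' : ∀ b ∈ B, Behind n τ₁ b) (ha : a ∈ A) (ha' : a' ∈ A)
    (hb : b ∈ B) :
    dist (pos (neckMid A B)) (par b a' a • pos (neckMid A B)) ≤ 80 * exp (-(τ₂ - τ₁) / 2) := by
  obtain ⟨a₀, A, rfl⟩ := List.exists_cons_of_length_pos (l := A) (by omega)
  obtain ⟨b₀, B, rfl⟩ := List.exists_cons_of_length_pos (l := B) (by omega)
  have hA0 : A ≠ [] := by
    rintro rfl
    simp at hA
  have hB0 : B ≠ [] := by
    rintro rfl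
    simp at hB
  have hlen := neck_len (by linarith) hG hA0 hB0 hA' hB'
  rw [pos_neckMid]
  refine (disp_gam (n := lineBA a₀ b₀) (τ₁ := neckLo (a₀ :: A) (b₀ :: B))
    (τ₂ := neckHi (a₀ :: A) (b₀ :: B)) (by linarith) (by linarith) (neck_behind hG hb)
    (neck_ahead hG ha) (neck_ahead hG ha')).trans ?_
  refine le_trans (le_of_eq ?_) (Neck_exp hlen)
  congr 2
  ring

/-- displacement of the middle of the neck, mirror image -/
theorem disp_neck' {n a b b' : G} {A B : List G} {τ₁ τ₂ : ℝ} (hτ : τ₁ + 4 ≤ τ₂)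
    (hG : Generic (A ++ B)) (hA : 2 ≤ A.length) (hB : 2 ≤ B.length)
    (hA' : ∀ a ∈ A, Ahead n τ₂ a) (hB' : ∀ b ∈ B, Behind n τ₁ b) (ha : a ∈ A) (hb : b ∈ B)
    (hb' : b' ∈ B) :
    dist (pos (neckMid A B)) (par a b' b • pos (neckMid A B)) ≤ 80 * exp (-(τ₂ - τ₁) / 2) := by
  obtain ⟨a₀, A, rfl⟩ := List.exists_cons_of_length_pos (l := A) (by omega)
  obtain ⟨b₀, B, rfl⟩ := List.exists_cons_of_length_pos (l := B) (by omega)
  have hA0 : A ≠ [] := by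
    rintro rfl
    simp at hA
  have hB0 : B ≠ [] := by
    rintro rfl
    simp at hB
  have hlen := neck_len (by linarith) hG hA0 hB0 hA' hB'
  rw [pos_neckMid]
  refine (disp_gam' (n := lineBA a₀ b₀) (τ₁ := neckLo (a₀ :: A) (b₀ :: B))
    (τ₂ := neckHi (a₀ :: A) (b₀ :: B)) (by linarith) (by linarith) (neck_ahead hG ha)
    (neck_behind hG hb) (neck_behind hG hb')).trans ?_
  refine le_trans (le_of_eq ?_) (Neck_exp hlen)
  congr 2
  ring

end Pool.Agent.H99.BC
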