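import Pool.Agent.H99.BC.Disp

/-!
# BC, block GEO: roots and necks
-/

set_option autoImplicit false

open Real
open scoped MatrixGroups UpperHalfPlane

namespace Pool.Agent.H99.BC

open Pool.Agent.Helper11.BC

/-! ### Equivariance -/

theorem xc_smul (h n g : G) : xc (h * n) (h * g) = xc n g := by
  unfold xc
  rw [mul_inv_rev, mul_assoc, inv_mul_cancel_left]

theorem map_xc_smul (h n : G) (D : List G) : (D.map (h * ·)).map (xc (h * n)) = D.map (xc n) := by
  rw [List.map_map]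
  apply List.map_congr_left
  intro g _
  exact xc_smul h n g

theorem rad_smul (h n : G) (D : List G) : rad (h * n) (D.map (h * ·)) = rad n D := by
  unfold rad
  rw [map_xc_smul]

theorem root_smul (h n : G) (D : List G) : root (h * n) (D.map (h * ·)) = h * root n D := by
  unfold root
  simp only [rad_smul, map_xc_smul]
  split_ifs
  · rw [mul_assoc]
  · rfl

theorem lineBA_entries {a b : G} (h : br a b ≠ 0) :
    (lineBA a b) 0 0 = a 0 0 ∧ (lineBA a b) 1 0 = a 1 0 ∧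
      (lineBA a b) 0 1 = b 0 0 / br a b ∧ (lineBA a b) 1 1 = b 1 0 / br a b := by
  have h' : ¬ (a 0 0 * b 1 0 - a 1 0 * b 0 0 = 0) := h
  have e : lineBA a b = ⟨!![a 0 0, b 0 0 / (a 0 0 * b 1 0 - a 1 0 * b 0 0);
        a 1 0, b 1 0 / (a 0 0 * b 1 0 - a 1 0 * b 0 0)], by
      rw [Matrix.det_fin_two_of]
      field_simp⟩ := by
    unfold lineBA
    rw [dif_neg h']
  refine ⟨?_, ?_, ?_, ?_⟩ <;> rw [e] <;> rfl

theorem ext_G {g h : G} (h00 : g 0 0 = h 0 0) (h01 : g 0 1 = h 0 1) (h10 : g 1 0 = h 1 0)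
    (h11 : g 1 1 = h 1 1) : g = h := by
  apply Matrix.SpecialLinearGroup.ext
  intro i j
  fin_cases i <;> fin_cases j
  · exact h00
  · exact h01
  · exact h10
  · exact h11

theorem lineBA_smul (h a b : G) : lineBA (h * a) (h * b) = h * lineBA a b := by
  by_cases h0 : br a b = 0
  · have h1 : br (h * a) (h * b) = 0 := by rw [br_smul, h0]
    have e1 : lineBA (h * a) (h * b) = h * a := by
      unfold lineBA
      exact dif_pos h1
    have e2 : lineBA a b = a := by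
      unfold lineBA
      exact dif_pos h0
    rw [e1, e2]
  · have h1 : br (h * a) (h * b) ≠ 0 := by rw [br_smul]; exact h0
    obtain ⟨e00, e10, e01, e11⟩ := lineBA_entries h0
    obtain ⟨f00, f10, f01, f11⟩ := lineBA_entries h1
    apply ext_G
    · rw [f00, mul00 h (lineBA a b), mul00 h a, e00, e10]
    · rw [f01, mul01 h (lineBA a b), mul00 h b, e01, e11, br_smul]
      ring
    · rw [f10, mul10 h (lineBA a b), mul10 h a, e00, e10]
    · rw [f11, mul11 h (lineBA a b), mul10 h b, e01, e11, br_smul]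
      ring

/-- the frame of the line in terms of brackets -/
theorem lineBA_inv {a b : G} (h : br a b ≠ 0) (g : G) :
    ((lineBA a b)⁻¹ * g) 0 0 = br g b / br a b ∧ ((lineBA a b)⁻¹ * g) 1 0 = br a g := by
  obtain ⟨e00, e10, e01, e11⟩ := lineBA_entries h
  constructor
  · rw [mul00, inv00, inv01, e11, e01]
    unfold br
    ring
  · rw [mul10, inv10, inv11, e10, e00]
    unfold br
    ring

theorem neckMid_smul (h : G) {A B : List G} (hA : A ≠ []) (hB : B ≠ []) :
    neckMid (A.map (h * ·)) (B.map (h * ·)) = h * neckMid A B := by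
  obtain ⟨a, A, rfl⟩ := List.exists_cons_of_ne_nil hA
  obtain ⟨b, B, rfl⟩ := List.exists_cons_of_ne_nil hB
  unfold neckMid neckLo neckHi
  simp only [List.map_cons, List.headD_cons, List.tail_cons, List.map_map, lineBA_smul]
  rw [mul_assoc]
  congr 6 <;> (congr 1; apply List.map_congr_left; intro g _; simp [xc_smul])

/-! ### Roots -/

theorem abs_xc_le {n g : G} {τ : ℝ} (h : Behind n τ g) : |xc n g| ≤ exp τ := by
  have h0 : 0 < |(n⁻¹ * g) 1 0| := abs_pos.2 (behind_ne h)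
  unfold Behind at h
  unfold xc
  rw [abs_div, div_le_iff₀ h0, mul_comm]
  exact h

theorem xc_ne {n g h : G} (hg : (n⁻¹ * g) 1 0 ≠ 0) (hh : (n⁻¹ * h) 1 0 ≠ 0)
    (hne : ¬ SameEnd g h) : xc n g ≠ xc n h := by
  intro e
  apply hne
  rw [sameEnd_iff, br_frame n]
  unfold xc at e
  rw [div_eq_div_iff hg hh] at e
  linarith

theorem rad_pos {n : G} {D : List G} {τ : ℝ} (hD : Generic D) (hl : 2 ≤ D.length)
    (hB : ∀ g ∈ D, Behind n τ g) : 0 < rad n D := by
  rcases D with _ | ⟨g, _ | ⟨h, l⟩⟩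
  · simp at hl
  · simp at hl
  unfold Generic at hD
  have hne : ¬ SameEnd g h := (List.pairwise_cons.1 hD).1 h (by simp)
  have h1 := xc_ne (behind_ne (hB g (by simp))) (behind_ne (hB h (by simp))) hne
  have hg : xc n g ∈ (g :: h :: l).map (xc n) := List.mem_map_of_mem (by simp)
  have hh : xc n h ∈ (g :: h :: l).map (xc n) := List.mem_map_of_mem (by simp)
  have a1 := le_lmax hg
  have a2 := le_lmax hh
  have a3 := lmin_le hg
  have a4 := lmin_le hh
  unfold rad
  rcases lt_or_gt_of_ne h1 with h2 | h2 <;> linarith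

theorem root_inv {n : G} {D : List G} (h : 0 < rad n D) (g : G) :
    ((root n D)⁻¹ * g) 0 0 = ((n⁻¹ * g) 0 0 -
      (lmax (D.map (xc n)) + lmin (D.map (xc n))) / 2 * (n⁻¹ * g) 1 0) / √(rad n D) ∧
    ((root n D)⁻¹ * g) 1 0 = √(rad n D) * (n⁻¹ * g) 1 0 := by
  have e : root n D = n * UpperHalfPlane.toSL2R
      ⟨⟨(lmax (D.map (xc n)) + lmin (D.map (xc n))) / 2, rad n D⟩, h⟩ := by
    unfold root
    rw [dif_pos h]
  obtain ⟨z, hz⟩ : ∃ z : ℍ, z = ⟨⟨(lmax (D.map (xc n)) + lmin (D.map (xc n))) / 2, rad n D⟩, h⟩ :=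
    ⟨_, rfl⟩
  rw [← hz] at e
  have him : z.im = rad n D := by rw [hz]; rfl
  have hre : z.re = (lmax (D.map (xc n)) + lmin (D.map (xc n))) / 2 := by rw [hz]; rfl
  have t00 : (z.toSL2R) 0 0 = √z.im := rfl
  have t01 : (z.toSL2R) 0 1 = z.re / √z.im := rfl
  have t10 : (z.toSL2R) 1 0 = 0 := rfl
  have t11 : (z.toSL2R) 1 1 = 1 / √z.im := rfl
  have hs : √(rad n D) ≠ 0 := (sqrt_pos.2 h).ne'
  rw [e, mul_inv_rev, mul_assoc]
  obtain ⟨g', hg'⟩ : ∃ g', g' = n⁻¹ * g := ⟨_, rfl⟩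
  rw [← hg', mul00, mul10, inv00, inv01, inv10, inv11, t00, t01, t10, t11, him, hre]
  constructor
  · ring
  · ring

/-- displacement of the root -/
theorem disp_root {n a a' b : G} {D : List G} {τ₁ τ₂ : ℝ} (hτ : τ₁ + 1 ≤ τ₂) (hb : b ∈ D)
    (hD : ∀ g ∈ D, Behind n τ₁ g) (hr : 0 < rad n D) (ha : Ahead n τ₂ a) (ha' : Ahead n τ₂ a') :
    dist (pos (root n D)) (par b a' a • pos (root n D)) ≤ 16 * exp (τ₁ - τ₂) := by
  have hy := behind_ne (hD b hb)
  obtain ⟨h1, h2⟩ := root_inv hr b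
  have hne : D.map (xc n) ≠ [] := by
    intro h
    rw [List.map_eq_nil_iff] at h
    rw [h] at hb
    simp at hb
  have hmax := le_lmax (List.mem_map_of_mem (f := xc n) hb)
  have hmin := lmin_le (List.mem_map_of_mem (f := xc n) hb)
  have hmax' : lmax (D.map (xc n)) ≤ exp τ₁ := by
    apply lmax_le hne
    intro x hx
    obtain ⟨g, hg, rfl⟩ := List.mem_map.1 hx
    exact (abs_le.1 (abs_xc_le (hD g hg))).2
  have hmin' : -exp τ₁ ≤ lmin (D.map (xc n)) := by
    apply le_lmin hne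
    intro x hx
    obtain ⟨g, hg, rfl⟩ := List.mem_map.1 hx
    exact (abs_le.1 (abs_xc_le (hD g hg))).1
  have hrad : rad n D = (lmax (D.map (xc n)) - lmin (D.map (xc n))) / 2 := rfl
  have hx : (n⁻¹ * b) 0 0 = xc n b * (n⁻¹ * b) 1 0 := by
    unfold xc
    field_simp
  set M := lmax (D.map (xc n))
  set m := lmin (D.map (xc n))
  have hr' : rad n D ≤ exp τ₁ := by rw [hrad]; linarith
  have hN : ((root n D)⁻¹ * b) 0 0 ^ 2 + ((root n D)⁻¹ * b) 1 0 ^ 2 ≤
      2 * exp τ₁ * (n⁻¹ * b) 1 0 ^ 2 := by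
    rw [h1, h2, hx]
    have h3 : ((xc n b * (n⁻¹ * b) 1 0 - (M + m) / 2 * (n⁻¹ * b) 1 0) / √(rad n D)) ^ 2 +
        (√(rad n D) * (n⁻¹ * b) 1 0) ^ 2 =
        ((xc n b - (M + m) / 2) ^ 2 / rad n D + rad n D) * (n⁻¹ * b) 1 0 ^ 2 := by
      rw [div_pow, mul_pow, sq_sqrt hr.le]
      ring
    rw [h3]
    apply mul_le_mul_of_nonneg_right _ (sq_nonneg _)
    have h4 : (xc n b - (M + m) / 2) ^ 2 ≤ rad n D ^ 2 := by
      apply sq_le_sq'
      · rw [hrad]; linarith
      · rw [hrad]; linarith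
    have h5 : (xc n b - (M + m) / 2) ^ 2 / rad n D ≤ rad n D := by
      rw [div_le_iff₀ hr]
      nlinarith
    linarith
  refine (disp_of_le hτ (hD b hb) ha ha' hN).trans (le_of_eq ?_)
  rw [sub_eq_add_neg, exp_add]
  ring

/-! ### Necks -/

/-- the coordinate on the line of the first elements -/
theorem xc_lineBA {a b : G} (h : br a b ≠ 0) (g : G) :
    xc (lineBA a b) g = br g b / (br a b * br a g) := by
  obtain ⟨h1, h2⟩ := lineBA_inv h g
  unfold xc
  rw [h1, h2, div_div]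

/-- the elements of `B` are behind the neck -/
theorem neck_behind {a₀ b₀ : G} {A B : List G} (hG : Generic (a₀ :: A ++ b₀ :: B)) {b : G} (hb : b ∈ b₀ :: B) :
    Behind (lineBA a₀ b₀) (neckLo (a₀ :: A) (b₀ :: B)) b := by
  unfold Generic at hG
  have h0 : br a₀ b₀ ≠ 0 := by
    intro h
    exact (List.pairwise_cons.1 hG).1 b₀ (by simp) ((sameEnd_iff _ _).2 h)
  obtain ⟨h1, h2⟩ := lineBA_inv h0 b
  unfold Behind
  rw [h1, h2]
  rcases List.mem_cons.1 hb with rfl | hb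
  · rw [br_self, zero_div, abs_zero]
    positivity
  have hab : br a₀ b ≠ 0 := by
    intro h
    exact (List.pairwise_cons.1 hG).1 b (by simp [hb]) ((sameEnd_iff _ _).2 h)
  have hbb : br b b₀ ≠ 0 := by
    intro h
    have h3 := (List.pairwise_append.1 hG).2.1
    exact (List.pairwise_cons.1 h3).1 b hb (sameEnd_symm ((sameEnd_iff _ _).2 h))
  have h3 : log |xc (lineBA a₀ b₀) b| ≤ neckLo (a₀ :: A) (b₀ :: B) := by
    unfold neckLo
    simp only [List.headD_cons, List.tail_cons]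
    exact le_lmax (List.mem_map_of_mem (f := fun b => log |xc (lineBA a₀ b₀) b|) hb)
  rw [xc_lineBA h0] at h3
  have h4 : 0 < |br b b₀ / (br a₀ b₀ * br a₀ b)| := by positivity
  rw [log_le_iff_le_exp h4] at h3
  rw [abs_div, abs_mul] at h3
  rw [abs_div]
  have h5 : |br b b₀| / |br a₀ b₀| = |br b b₀| / (|br a₀ b₀| * |br a₀ b|) * |br a₀ b| := by
    have : |br a₀ b| ≠ 0 := abs_ne_zero.2 hab
    have : |br a₀ b₀| ≠ 0 := abs_ne_zero.2 h0
    field_simp
  rw [h5, mul_comm]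
  exact mul_le_mul_of_nonneg_left h3 (abs_nonneg _)

/-- the elements of `A` are ahead of the neck -/
theorem neck_ahead {a₀ b₀ : G} {A B : List G} (hG : Generic (a₀ :: A ++ b₀ :: B)) {a : G} (ha : a ∈ a₀ :: A) :
    Ahead (lineBA a₀ b₀) (neckHi (a₀ :: A) (b₀ :: B)) a := by
  unfold Generic at hG
  have h0 : br a₀ b₀ ≠ 0 := by
    intro h
    exact (List.pairwise_cons.1 hG).1 b₀ (by simp) ((sameEnd_iff _ _).2 h)
  obtain ⟨h1, h2⟩ := lineBA_inv h0 a
  unfold Ahead
  rw [h1, h2]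
  rcases List.mem_cons.1 ha with rfl | ha
  · rw [br_self, abs_zero, zero_mul]
    positivity
  have hab : br a b₀ ≠ 0 := by
    intro h
    exact (List.pairwise_append.1 hG).2.2 a (List.mem_cons_of_mem _ ha) b₀ (by simp)
      ((sameEnd_iff _ _).2 h)
  have haa : br a₀ a ≠ 0 := by
    intro h
    exact (List.pairwise_cons.1 hG).1 a (by simp [ha]) ((sameEnd_iff _ _).2 h)
  have h3 : neckHi (a₀ :: A) (b₀ :: B) ≤ log |xc (lineBA a₀ b₀) a| := by
    unfold neckHi
    simp only [List.headD_cons, List.tail_cons]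
    exact lmin_le (List.mem_map_of_mem (f := fun b => log |xc (lineBA a₀ b₀) b|) ha)
  rw [xc_lineBA h0] at h3
  have h4 : 0 < |br a b₀ / (br a₀ b₀ * br a₀ a)| := by positivity
  rw [le_log_iff_exp_le h4] at h3
  rw [abs_div, abs_mul] at h3
  rw [abs_div]
  have h5 : |br a b₀| / |br a₀ b₀| = |br a₀ a| * (|br a b₀| / (|br a₀ b₀| * |br a₀ a|)) := by
    have : |br a₀ a| ≠ 0 := abs_ne_zero.2 haa
    have : |br a₀ b₀| ≠ 0 := abs_ne_zero.2 h0
    field_simp
  rw [h5]
  exact mul_le_mul_of_nonneg_left h3 (abs_nonneg _)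

end Pool.Agent.H99.BC
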