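import Pool.Agent.H99.BC.Close

/-!
# BC, block GEO: the roots seen from two frames with close segments
-/

set_option autoImplicit false

open Real
open scoped MatrixGroups UpperHalfPlane

namespace Pool.Agent.H99.BC

open Pool.Agent.Helper11.BC

private theorem RC_y (n n' g : G) (hy' : (n'⁻¹ * g) 1 0 ≠ 0) :
    (n⁻¹ * g) 1 0 = (n'⁻¹ * g) 1 0 * ((n⁻¹ * n') 1 1 + (n⁻¹ * n') 1 0 * xc n' g) := by
  have h1 : n⁻¹ * g = (n⁻¹ * n') * (n'⁻¹ * g) := by group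
  have h2 : (n⁻¹ * g) 1 0 = (n⁻¹ * n') 1 0 * (n'⁻¹ * g) 0 0 +
      (n⁻¹ * n') 1 1 * (n'⁻¹ * g) 1 0 := by
    rw [h1, mul10 (n⁻¹ * n') (n'⁻¹ * g)]
  rw [h2]
  unfold xc
  field_simp
  ring

private theorem RC_diff {n g h : G} (hg : (n⁻¹ * g) 1 0 ≠ 0) (hh : (n⁻¹ * h) 1 0 ≠ 0) :
    (xc n h - xc n g) * ((n⁻¹ * g) 1 0 * (n⁻¹ * h) 1 0) = br h g := by
  rw [br_frame n h g]
  unfold xc
  field_simp

private theorem RC_pos {δ u v : ℝ} (hδ : δ ≠ 0) (hu : |u| ≤ |δ| / 8) (hv : |v| ≤ |δ| / 8) :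
    0 < (δ + u) * (δ + v) ∧ δ ^ 2 ≤ 4 * ((δ + u) * (δ + v)) := by
  have h0 : 0 < |δ| := abs_pos.2 hδ
  have h1 : (δ + u) * (δ + v) = δ ^ 2 + δ * (u + v) + u * v := by ring
  have h2 : |δ * (u + v)| ≤ |δ| * (|δ| / 4) := by
    rw [abs_mul]
    apply mul_le_mul_of_nonneg_left _ h0.le
    exact (abs_add_le u v).trans (by linarith)
  have h3 : |u * v| ≤ |δ| / 8 * (|δ| / 8) := by
    rw [abs_mul]
    exact mul_le_mul hu hv (abs_nonneg _) (by positivity)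
  have h4 := (abs_le.1 h2).1
  have h5 := (abs_le.1 h3).1
  have h6 : δ ^ 2 = |δ| ^ 2 := (sq_abs δ).symm
  rw [h1, h6]
  have h7 : 0 < |δ| ^ 2 := by positivity
  constructor <;> nlinarith

private theorem RC_root {n : G} {D : List G} (hr : 0 < rad n D) {g : G}
    (hy : (n⁻¹ * g) 1 0 ≠ 0) {e : ℝ}
    (he : xc n g = (lmax (D.map (xc n)) + lmin (D.map (xc n))) / 2 + e * rad n D) :
    ((root n D)⁻¹ * g) 0 0 = e * (√(rad n D) * (n⁻¹ * g) 1 0) ∧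
      ((root n D)⁻¹ * g) 1 0 = √(rad n D) * (n⁻¹ * g) 1 0 := by
  obtain ⟨h1, h2⟩ := root_inv hr g
  refine ⟨?_, h2⟩
  have hs : 0 < √(rad n D) := sqrt_pos.2 hr
  have hx : (n⁻¹ * g) 0 0 = xc n g * (n⁻¹ * g) 1 0 := by
    unfold xc
    field_simp
  rw [h1, hx, he, div_eq_iff hs.ne']
  have hss : √(rad n D) * √(rad n D) = rad n D := mul_self_sqrt hr.le
  linear_combination (-(e * (n⁻¹ * g) 1 0)) * hss

/-- The roots seen from two frames with close segments are close.  (The mirror image is the same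
statement for `n * flip`, `n' * flip`.) -/
theorem root_close {n n' : G} {τ₁ τ₂ τ₁' τ₂' C₀ : ℝ} (h0 : 0 ≤ C₀) (h : τ₁ ≤ τ₂)
    (h' : τ₁' ≤ τ₂') (h1 : dist (gam n τ₁) (gam n' τ₁') ≤ C₀)
    (h2 : dist (gam n τ₂) (gam n' τ₂') ≤ C₀) (hL : 3 * C₀ + 5 ≤ τ₂ - τ₁) {D : List G}
    (hG : Generic D) (hl : 2 ≤ D.length) (hB : ∀ g ∈ D, Behind n τ₁ g)
    (hB' : ∀ g ∈ D, Behind n' τ₁' g) :
    dist (pos (root n D)) (pos (root n' D)) ≤ 40 * exp (3 * C₀) * exp (-(τ₂ - τ₁)) := by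
  obtain ⟨-, hγδ, hδ⟩ := close_entries h0 h h' h1 h2 (by linarith)
  have hlen := abs_le.1 (close_len h h' h1 h2)
  have hr : 0 < rad n D := rad_pos hG hl hB
  have hr' : 0 < rad n' D := rad_pos hG hl hB'
  have hne : D ≠ [] := by
    rintro rfl
    simp at hl
  -- the small number
  obtain ⟨ε, hε⟩ : ∃ ε, ε = 4 * exp C₀ * exp (τ₁' - τ₂') := ⟨_, rfl⟩
  have hεpos : 0 < ε := by rw [hε]; positivity
  have hε1 : ε ≤ 4 * (exp (3 * C₀) * exp (-(τ₂ - τ₁))) := by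
    rw [hε, mul_assoc, ← exp_add, ← exp_add]
    apply mul_le_mul_of_nonneg_left _ (by norm_num)
    apply exp_le_exp.2
    linarith
  have hε2 : ε ≤ 1 / 8 := by
    rw [hε, mul_assoc, ← exp_add]
    have e1 : exp (C₀ + (τ₁' - τ₂')) ≤ exp (-5) := by
      apply exp_le_exp.2
      linarith
    have e2 : exp (-5 : ℝ) ≤ 1 / 32 := by
      rw [exp_neg, inv_eq_one_div]
      apply one_div_le_one_div_of_le (by norm_num)
      have h3 : exp (5 : ℝ) = exp 1 ^ 5 := by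
        rw [← exp_nat_mul]
        norm_num
      rw [h3]
      have h4 := add_one_le_exp (1 : ℝ)
      calc (32 : ℝ) = 2 ^ 5 := by norm_num
        _ ≤ exp 1 ^ 5 := pow_le_pow_left₀ (by norm_num) (by linarith) 5
    linarith
  obtain ⟨γ, hγ⟩ : ∃ γ, γ = (n⁻¹ * n') 1 0 := ⟨_, rfl⟩
  obtain ⟨δ, hδe⟩ : ∃ δ, δ = (n⁻¹ * n') 1 1 := ⟨_, rfl⟩
  rw [← hγ, ← hδe] at hγδ
  rw [← hδe] at hδ
  have hδ0 : 0 < |δ| := abs_pos.2 hδ
  have hu : ∀ g ∈ D, |γ * xc n' g| ≤ ε * |δ| := by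
    intro g hg
    have e1 := abs_xc_le (hB' g hg)
    rw [abs_mul]
    have e2 : |γ| * exp τ₁' ≤ ε * |δ| := by
      have e3 : exp τ₁' = exp τ₂' * exp (τ₁' - τ₂') := by
        rw [← exp_add]
        congr 1
        ring
      rw [e3, hε]
      have e4 := mul_le_mul_of_nonneg_right hγδ (exp_pos (τ₁' - τ₂')).le
      linarith
    exact (mul_le_mul_of_nonneg_left e1 (abs_nonneg _)).trans e2
  have hu8 : ∀ g ∈ D, |γ * xc n' g| ≤ |δ| / 8 := by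
    intro g hg
    refine (hu g hg).trans ?_
    have := mul_le_mul_of_nonneg_right hε2 hδ0.le
    linarith
  have hyy : ∀ g ∈ D, (n⁻¹ * g) 1 0 = (n'⁻¹ * g) 1 0 * (δ + γ * xc n' g) := by
    intro g hg
    rw [hγ, hδe]
    exact RC_y n n' g (behind_ne (hB' g hg))
  -- the coordinates are in the same order
  have hmono : ∀ g ∈ D, ∀ k ∈ D, xc n g ≤ xc n k → xc n' g ≤ xc n' k := by
    intro g hg k hk hle
    have e1 := RC_diff (behind_ne (hB g hg)) (behind_ne (hB k hk))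
    have e2 := RC_diff (behind_ne (hB' g hg)) (behind_ne (hB' k hk))
    have hp := (RC_pos hδ (hu8 g hg) (hu8 k hk)).1
    rw [hyy g hg, hyy k hk] at e1
    have hy' := mul_ne_zero (behind_ne (hB' g hg)) (behind_ne (hB' k hk))
    have e3 : ((xc n k - xc n g) * ((δ + γ * xc n' g) * (δ + γ * xc n' k))) *
        ((n'⁻¹ * g) 1 0 * (n'⁻¹ * k) 1 0) = (xc n' k - xc n' g) *
        ((n'⁻¹ * g) 1 0 * (n'⁻¹ * k) 1 0) := by
      rw [e2, ← e1]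
      ring
    have e4 := mul_right_cancel₀ hy' e3
    have e5 : 0 ≤ (xc n k - xc n g) * ((δ + γ * xc n' g) * (δ + γ * xc n' k)) :=
      mul_nonneg (by linarith) hp.le
    linarith
  obtain ⟨p, hp, hp1, hp2⟩ := lmax_map hne (xc n) (xc n') hmono
  obtain ⟨q, hq, hq1, hq2⟩ := lmin_map hne (xc n) (xc n') hmono
  have hrn : rad n D = (lmax (D.map (xc n)) - lmin (D.map (xc n))) / 2 := rfl
  have hrn' : rad n' D = (lmax (D.map (xc n')) - lmin (D.map (xc n'))) / 2 := rfl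
  obtain ⟨kp0, kp1⟩ := RC_root hr (g := p) (e := 1) (behind_ne (hB p hp)) (by
    rw [hrn, ← hp1]; ring)
  obtain ⟨kq0, kq1⟩ := RC_root hr (g := q) (e := -1) (behind_ne (hB q hq)) (by
    rw [hrn, ← hq1]; ring)
  obtain ⟨kp0', kp1'⟩ := RC_root hr' (g := p) (e := 1) (behind_ne (hB' p hp)) (by
    rw [hrn', ← hp2]; ring)
  obtain ⟨kq0', kq1'⟩ := RC_root hr' (g := q) (e := -1) (behind_ne (hB' q hq)) (by
    rw [hrn', ← hq2]; ring)
  rw [dist_pos]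
  obtain ⟨Q, hQ⟩ : ∃ Q, Q = (root n D)⁻¹ * root n' D := ⟨_, rfl⟩
  rw [← hQ]
  refine (dist_I_le Q).trans ?_
  have hQg : ∀ g : G, Q * ((root n' D)⁻¹ * g) = (root n D)⁻¹ * g := by
    intro g
    rw [hQ]
    group
  obtain ⟨σ, hσ⟩ : ∃ σ, σ = √(rad n D) := ⟨_, rfl⟩
  obtain ⟨σ', hσ'⟩ : ∃ σ', σ' = √(rad n' D) := ⟨_, rfl⟩
  have hσ0 : 0 < σ := by rw [hσ]; exact sqrt_pos.2 hr
  have hσ0' : 0 < σ' := by rw [hσ']; exact sqrt_pos.2 hr'
  rw [← hσ, hyy p hp] at kp0 kp1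
  rw [← hσ, hyy q hq] at kq0 kq1
  rw [← hσ'] at kp0' kp1' kq0' kq1'
  have hyp := behind_ne (hB' p hp)
  have hyq := behind_ne (hB' q hq)
  obtain ⟨y, hy⟩ : ∃ y, y = (n'⁻¹ * p) 1 0 := ⟨_, rfl⟩
  obtain ⟨z, hz⟩ : ∃ z, z = (n'⁻¹ * q) 1 0 := ⟨_, rfl⟩
  obtain ⟨u, hue⟩ : ∃ u, u = γ * xc n' p := ⟨_, rfl⟩
  obtain ⟨v, hve⟩ : ∃ v, v = γ * xc n' q := ⟨_, rfl⟩
  rw [← hy, ← hue] at kp0 kp1
  rw [← hz, ← hve] at kq0 kq1
  rw [← hy] at kp0' kp1' hyp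
  rw [← hz] at kq0' kq1' hyq
  have hu1 : |u| ≤ ε * |δ| := by rw [hue]; exact hu p hp
  have hv1 : |v| ≤ ε * |δ| := by rw [hve]; exact hu q hq
  have hu2 : |u| ≤ |δ| / 8 := by rw [hue]; exact hu8 p hp
  have hv2 : |v| ≤ |δ| / 8 := by rw [hve]; exact hu8 q hq
  have ep0 : (Q * ((root n' D)⁻¹ * p)) 0 0 = ((root n D)⁻¹ * p) 0 0 := by rw [hQg p]
  have ep1 : (Q * ((root n' D)⁻¹ * p)) 1 0 = ((root n D)⁻¹ * p) 1 0 := by rw [hQg p]
  have eq0 : (Q * ((root n' D)⁻¹ * q)) 0 0 = ((root n D)⁻¹ * q) 0 0 := by rw [hQg q]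
  have eq1 : (Q * ((root n' D)⁻¹ * q)) 1 0 = ((root n D)⁻¹ * q) 1 0 := by rw [hQg q]
  rw [mul00 Q ((root n' D)⁻¹ * p), kp0, kp0', kp1'] at ep0
  rw [mul10 Q ((root n' D)⁻¹ * p), kp1, kp0', kp1'] at ep1
  rw [mul00 Q ((root n' D)⁻¹ * q), kq0, kq0', kq1'] at eq0
  rw [mul10 Q ((root n' D)⁻¹ * q), kq1, kq0', kq1'] at eq1
  have f0 : (Q 0 0 + Q 0 1) * σ' = σ * (δ + u) := by
    apply mul_right_cancel₀ hyp
    linarith
  have f1 : (Q 1 0 + Q 1 1) * σ' = σ * (δ + u) := by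
    apply mul_right_cancel₀ hyp
    linarith
  have g0 : (Q 0 0 - Q 0 1) * σ' = σ * (δ + v) := by
    apply mul_right_cancel₀ hyq
    linarith
  have g1 : (Q 1 1 - Q 1 0) * σ' = σ * (δ + v) := by
    apply mul_right_cancel₀ hyq
    linarith
  have e1 : Q 0 0 - Q 1 1 = 0 := by
    have : (Q 0 0 - Q 1 1) * σ' = 0 := by linarith
    exact (mul_eq_zero.1 this).resolve_right hσ0'.ne'
  have e2 : (Q 0 1 + Q 1 0) * σ' = σ * (u - v) := by linarith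
  have hdet := det_eq Q
  have e3 : σ ^ 2 * ((δ + u) * (δ + v)) = σ' ^ 2 := by
    have k1 : (Q 0 0 + Q 0 1) * (Q 0 0 - Q 0 1) = 1 := by
      have k2 : Q 0 0 = Q 1 1 := by linarith
      have k3 : Q 0 1 * σ' = Q 1 0 * σ' := by
        have : (Q 0 0 + Q 0 1) * σ' - (Q 0 0 - Q 0 1) * σ' =
          (Q 1 0 + Q 1 1) * σ' - (Q 1 1 - Q 1 0) * σ' := by rw [f0, f1, g0, g1]
        linarith
      have k4 : Q 0 1 = Q 1 0 := mul_right_cancel₀ hσ0'.ne' k3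
      rw [← k2, ← k4] at hdet
      linarith
    calc σ ^ 2 * ((δ + u) * (δ + v)) = (σ * (δ + u)) * (σ * (δ + v)) := by ring
      _ = ((Q 0 0 + Q 0 1) * σ') * ((Q 0 0 - Q 0 1) * σ') := by rw [f0, g0]
      _ = ((Q 0 0 + Q 0 1) * (Q 0 0 - Q 0 1)) * σ' ^ 2 := by ring
      _ = σ' ^ 2 := by rw [k1, one_mul]
  have e4 : σ * |δ| ≤ 2 * σ' := by
    apply abs_le_of_sq_le_sq' _ (by positivity) |>.2
    rw [mul_pow, sq_abs, mul_pow, ← e3]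
    have k1 := (RC_pos hδ hu2 hv2).2
    have k2 := mul_le_mul_of_nonneg_left k1 (sq_nonneg σ)
    linarith
  have e5 : |Q 0 1 + Q 1 0| * σ' ≤ (4 * ε) * σ' := by
    have k1 : |Q 0 1 + Q 1 0| * σ' = σ * |u - v| := by
      rw [← abs_of_pos hσ0', ← abs_mul, e2, abs_mul, abs_of_pos hσ0]
    have k2 : |u - v| ≤ 2 * (ε * |δ|) := by
      have := abs_sub u v
      linarith
    rw [k1]
    have k3 := mul_le_mul_of_nonneg_left k2 hσ0.le
    have k4 := mul_le_mul_of_nonneg_left e4 hεpos.le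
    linarith
  have e6 := le_of_mul_le_mul_right e5 hσ0'
  rw [e1, abs_zero, zero_add]
  have e7 : 0 < exp (3 * C₀) * exp (-(τ₂ - τ₁)) := by positivity
  linarith

end Pool.Agent.H99.BC
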