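import Pool.Agent.H99.BC.Close

/-!
# BC, block GEO: fellow travelling, projections, centres of triangles
-/

set_option autoImplicit false

open Real
open scoped MatrixGroups UpperHalfPlane

namespace Pool.Agent.H99.BC

open Pool.Agent.Helper11.BC

/-! ### Fellow travelling -/

private theorem Tri_eight : (8 : ℝ) ≤ exp 3 := by
  have h3 : exp (3 : ℝ) = exp 1 ^ 3 := by
    rw [← exp_nat_mul]
    norm_num
  rw [h3]
  have h4 := add_one_le_exp (1 : ℝ)
  calc (8 : ℝ) = 2 ^ 3 := by norm_num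
    _ ≤ exp 1 ^ 3 := pow_le_pow_left₀ (by norm_num) (by linarith) 3

/-- the distance of two points of two lines from the entries of the transition -/
theorem dist_gam_le {n n' : G} {τ τ' C : ℝ} (h00 : (n⁻¹ * n') 0 0 ^ 2 * exp (τ' - τ) ≤ 2 * exp C)
    (h01 : (n⁻¹ * n') 0 1 ^ 2 * exp (-(τ + τ')) ≤ 2 * exp C)
    (h10 : (n⁻¹ * n') 1 0 ^ 2 * exp (τ + τ') ≤ 2 * exp C)
    (h11 : (n⁻¹ * n') 1 1 ^ 2 * exp (τ - τ') ≤ 2 * exp C) :
    dist (gam n τ) (gam n' τ') ≤ C + 3 := by
  rw [gam_eq, gam_eq, dist_pos]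
  obtain ⟨M, hM⟩ : ∃ M, M = n⁻¹ * n' := ⟨_, rfl⟩
  have h0 : (n * dg τ)⁻¹ * (n' * dg τ') = (dg τ)⁻¹ * (M * dg τ') := by
    rw [hM]
    group
  rw [h0]
  rw [← hM] at h00 h01 h10 h11
  have h1 := le_nsq ((dg τ)⁻¹ * (M * dg τ'))
  have d00 : ∀ σ, (dg σ) 0 0 = exp (σ / 2) := fun _ => rfl
  have d01 : ∀ σ, (dg σ) 0 1 = 0 := fun _ => rfl
  have d10 : ∀ σ, (dg σ) 1 0 = 0 := fun _ => rfl
  have d11 : ∀ σ, (dg σ) 1 1 = exp (-σ / 2) := fun _ => rfl
  unfold nsq at h1
  simp only [mul00, mul01, mul10, mul11, inv00, inv01, inv10, inv11, d00, d01, d10, d11] at h1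
  have e1 : exp (τ' - τ) = (exp (-τ / 2) * exp (τ' / 2)) ^ 2 := by
    rw [← exp_add, ← exp_nat_mul]
    congr 1
    push_cast
    ring
  have e2 : exp (-(τ + τ')) = (exp (-τ / 2) * exp (-τ' / 2)) ^ 2 := by
    rw [← exp_add, ← exp_nat_mul]
    congr 1
    push_cast
    ring
  have e3 : exp (τ + τ') = (exp (τ / 2) * exp (τ' / 2)) ^ 2 := by
    rw [← exp_add, ← exp_nat_mul]
    congr 1
    push_cast
    ring
  have e4 : exp (τ - τ') = (exp (τ / 2) * exp (-τ' / 2)) ^ 2 := by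
    rw [← exp_add, ← exp_nat_mul]
    congr 1
    push_cast
    ring
  rw [e1] at h00
  rw [e2] at h01
  rw [e3] at h10
  rw [e4] at h11
  have h2 : exp (dist UpperHalfPlane.I (((dg τ)⁻¹ * (M * dg τ')) • UpperHalfPlane.I)) ≤
      exp (C + 3) := by
    have h3 : exp (C + 3) = exp 3 * exp C := by rw [exp_add, mul_comm]
    have h4 := mul_le_mul_of_nonneg_right Tri_eight (exp_pos C).le
    rw [h3]
    refine h1.trans ?_
    nlinarith
  exact exp_le_exp.1 h2

theorem fellow (C₀ : ℝ) : ∃ K₀ : ℝ, ∀ (n n' : G) (α β α' β' : ℝ), α ≤ β → α' ≤ β' →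
    dist (gam n α) (gam n' α') ≤ C₀ → dist (gam n β) (gam n' β') ≤ C₀ →
    ∀ x, 0 ≤ x → α + x ≤ β → α' + x ≤ β' → dist (gam n (α + x)) (gam n' (α' + x)) ≤ K₀ := by
  refine ⟨C₀ + 3, fun n n' α β α' β' _ _ h1 h2 x hx hxβ hxβ' => ?_⟩
  obtain ⟨a1, b1, -, d1⟩ := frame_entries h1
  obtain ⟨-, -, c2, -⟩ := frame_entries h2
  apply dist_gam_le
  · convert a1 using 3
    ring
  · refine le_trans (mul_le_mul_of_nonneg_left ?_ (sq_nonneg _)) b1
    apply exp_le_exp.2
    linarith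
  · refine le_trans (mul_le_mul_of_nonneg_left ?_ (sq_nonneg _)) c2
    apply exp_le_exp.2
    linarith
  · convert d1 using 3
    ring

/-! ### Busemann functions and projections -/

/-- the Busemann function at `g • ∞` along the line of `n` -/
noncomputable def bus (n : G) (τ : ℝ) (g : G) : ℝ :=
  log (exp (-τ) * (n⁻¹ * g) 0 0 ^ 2 + exp τ * (n⁻¹ * g) 1 0 ^ 2)

private theorem bus_arg_pos (n : G) (τ : ℝ) (g : G) :
    0 < exp (-τ) * (n⁻¹ * g) 0 0 ^ 2 + exp τ * (n⁻¹ * g) 1 0 ^ 2 := by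
  have h1 := exp_pos τ
  have h2 := exp_pos (-τ)
  by_cases h : (n⁻¹ * g) 1 0 = 0
  · have h3 : (n⁻¹ * g) 0 0 ≠ 0 := fun h4 => col_ne _ ⟨h4, h⟩
    positivity
  · positivity

private theorem bus_le {n n' : G} {τ τ' : ℝ} (g : G) :
    bus n τ g ≤ bus n' τ' g + dist (gam n τ) (gam n' τ') := by
  rw [gam_eq, gam_eq, dist_pos]
  obtain ⟨Q, hQ⟩ : ∃ Q, Q = (n * dg τ)⁻¹ * (n' * dg τ') := ⟨_, rfl⟩
  rw [← hQ]
  have h1 := norm_le Q (((n' * dg τ')⁻¹ * g) 0 0) (((n' * dg τ')⁻¹ * g) 1 0)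
  have h2 : Q * ((n' * dg τ')⁻¹ * g) = (n * dg τ)⁻¹ * g := by
    rw [hQ]
    group
  rw [← mul00 Q ((n' * dg τ')⁻¹ * g), ← mul10 Q ((n' * dg τ')⁻¹ * g), h2, inv_dg_00, inv_dg_10,
    inv_dg_00, inv_dg_10] at h1
  have e1 : ∀ σ : ℝ, exp (-σ / 2) ^ 2 = exp (-σ) := by
    intro σ
    rw [← exp_nat_mul]
    congr 1
    push_cast
    ring
  have e2 : ∀ σ : ℝ, exp (σ / 2) ^ 2 = exp σ := by
    intro σ
    rw [← exp_nat_mul]
    congr 1
    push_cast
    ring
  simp only [mul_pow, e1, e2] at h1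
  unfold bus
  rw [← log_exp (dist UpperHalfPlane.I (Q • UpperHalfPlane.I)),
    ← log_mul (bus_arg_pos n' τ' g).ne' (exp_pos _).ne']
  apply log_le_log (bus_arg_pos n τ g)
  rw [mul_comm (exp (-τ') * _ + _)]
  exact h1

theorem bus_lip (n n' : G) (τ τ' : ℝ) (g : G) :
    |bus n τ g - bus n' τ' g| ≤ dist (gam n τ) (gam n' τ') := by
  have h1 := bus_le (n := n) (n' := n') (τ := τ) (τ' := τ') g
  have h2 := bus_le (n := n') (n' := n) (τ := τ') (τ' := τ) g
  rw [dist_comm] at h2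
  rw [abs_le]
  constructor <;> linarith

private theorem Tri_log2 : log 2 ≤ 1 := by
  have := Real.log_two_lt_d9
  linarith

/-- the projection parameter in terms of the Busemann function -/
theorem bus_prj {n g : G} {α β p : ℝ} (hα : α ≤ p) (hβ : p ≤ β) (ha : α < p → Ahead n p g)
    (hb : p < β → Behind n p g) :
    |(β - α) - (bus n β g - bus n α g) - 2 * (p - α)| ≤ 1 := by
  rcases hα.eq_or_lt with rfl | hα'
  · rcases hβ.eq_or_lt with rfl | hβ'
    · simp
    · -- behind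
      have h := hb hβ'
      have hy := behind_ne h
      unfold Behind at h
      have hx2 : (n⁻¹ * g) 0 0 ^ 2 ≤ (n⁻¹ * g) 1 0 ^ 2 * exp (2 * α) := by
        have h1 := pow_le_pow_left₀ (abs_nonneg _) h 2
        rw [mul_pow, sq_abs, sq_abs, ← exp_nat_mul] at h1
        exact_mod_cast h1
      have hy2 : 0 < (n⁻¹ * g) 1 0 ^ 2 := by positivity
      unfold bus
      set x2 := (n⁻¹ * g) 0 0 ^ 2
      set y2 := (n⁻¹ * g) 1 0 ^ 2
      have hx0 : 0 ≤ x2 := sq_nonneg _
      have key : ∀ τ, α ≤ τ → τ + log y2 ≤ log (exp (-τ) * x2 + exp τ * y2) ∧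
          log (exp (-τ) * x2 + exp τ * y2) ≤ τ + log y2 + log 2 := by
        intro τ hτ
        have hp : 0 < exp τ * y2 := by positivity
        have e1 : exp (-τ) * x2 ≤ exp τ * y2 := by
          have e2 : exp (-τ) * x2 ≤ exp (-τ) * (y2 * exp (2 * α)) :=
            mul_le_mul_of_nonneg_left hx2 (exp_pos _).le
          have e3 : exp (-τ) * (y2 * exp (2 * α)) = exp (2 * α - τ) * y2 := by
            rw [show 2 * α - τ = -τ + 2 * α by ring, exp_add]
            ring
          have e4 : exp (2 * α - τ) ≤ exp τ := exp_le_exp.2 (by linarith)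
          rw [e3] at e2
          exact e2.trans (mul_le_mul_of_nonneg_right e4 hy2.le)
        have e5 : τ + log y2 = log (exp τ * y2) := by
          rw [log_mul (exp_pos _).ne' hy2.ne', log_exp]
        rw [e5]
        constructor
        · apply log_le_log hp
          have : 0 ≤ exp (-τ) * x2 := by positivity
          linarith
        · rw [← log_mul hp.ne' (by norm_num)]
          apply log_le_log (by positivity)
          linarith
      obtain ⟨k1, k2⟩ := key α le_rfl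
      obtain ⟨k3, k4⟩ := key β hβ'.le
      have := Tri_log2
      rw [abs_le]
      constructor <;> linarith
  · have h := ha hα'
    have hx := ahead_ne h
    unfold Ahead at h
    have hy2 : (n⁻¹ * g) 1 0 ^ 2 * exp (2 * p) ≤ (n⁻¹ * g) 0 0 ^ 2 := by
      have h1 := pow_le_pow_left₀ (by positivity) h 2
      rw [mul_pow, sq_abs, sq_abs, ← exp_nat_mul] at h1
      exact_mod_cast h1
    have hx2 : 0 < (n⁻¹ * g) 0 0 ^ 2 := by positivity
    have hb2 : p < β → (n⁻¹ * g) 0 0 ^ 2 ≤ (n⁻¹ * g) 1 0 ^ 2 * exp (2 * p) := by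
      intro hpβ
      have h2 := hb hpβ
      unfold Behind at h2
      have h1 := pow_le_pow_left₀ (abs_nonneg _) h2 2
      rw [mul_pow, sq_abs, sq_abs, ← exp_nat_mul] at h1
      exact_mod_cast h1
    unfold bus
    set x2 := (n⁻¹ * g) 0 0 ^ 2
    set y2 := (n⁻¹ * g) 1 0 ^ 2
    have hy0 : 0 ≤ y2 := sq_nonneg _
    have key : ∀ τ, τ ≤ p → -τ + log x2 ≤ log (exp (-τ) * x2 + exp τ * y2) ∧
        log (exp (-τ) * x2 + exp τ * y2) ≤ -τ + log x2 + log 2 := by
      intro τ hτ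
      have hp : 0 < exp (-τ) * x2 := by positivity
      have e1 : exp τ * y2 ≤ exp (-τ) * x2 := by
        have e2 : exp (-τ) * (y2 * exp (2 * p)) ≤ exp (-τ) * x2 :=
          mul_le_mul_of_nonneg_left hy2 (exp_pos _).le
        have e3 : exp (-τ) * (y2 * exp (2 * p)) = exp (2 * p - τ) * y2 := by
          rw [show 2 * p - τ = -τ + 2 * p by ring, exp_add]
          ring
        have e4 : exp τ ≤ exp (2 * p - τ) := exp_le_exp.2 (by linarith)
        rw [e3] at e2
        exact (mul_le_mul_of_nonneg_right e4 hy0).trans e2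
      have e5 : -τ + log x2 = log (exp (-τ) * x2) := by
        rw [log_mul (exp_pos _).ne' hx2.ne', log_exp]
      rw [e5]
      constructor
      · apply log_le_log hp
        have : 0 ≤ exp τ * y2 := by positivity
        linarith
      · rw [← log_mul hp.ne' (by norm_num)]
        apply log_le_log (by positivity)
        linarith
    obtain ⟨k1, k2⟩ := key α hα
    have hl2 := Tri_log2
    rcases hβ.eq_or_lt with rfl | hβ'
    · obtain ⟨k3, k4⟩ := key p le_rfl
      rw [abs_le]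
      constructor <;> linarith
    · have hxy : x2 = y2 * exp (2 * p) := le_antisymm (hb2 hβ') hy2
      have hy : 0 < y2 := by
        rcases hy0.eq_or_lt with h0 | h0
        · rw [← h0, zero_mul] at hxy
          rw [hxy] at hx2
          exact absurd hx2 (lt_irrefl _)
        · exact h0
      have hlx : log x2 = log y2 + 2 * p := by
        rw [hxy, log_mul hy.ne' (exp_pos _).ne', log_exp]
      have e1 : exp (-β) * x2 ≤ exp β * y2 := by
        rw [hxy]
        have e3 : exp (-β) * (y2 * exp (2 * p)) = exp (2 * p - β) * y2 := by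
          rw [show 2 * p - β = -β + 2 * p by ring, exp_add]
          ring
        rw [e3]
        exact mul_le_mul_of_nonneg_right (exp_le_exp.2 (by linarith)) hy.le
      have hp : 0 < exp β * y2 := by positivity
      have e5 : β + log y2 = log (exp β * y2) := by
        rw [log_mul (exp_pos _).ne' hy.ne', log_exp]
      have k3 : β + log y2 ≤ log (exp (-β) * x2 + exp β * y2) := by
        rw [e5]
        apply log_le_log hp
        have : 0 ≤ exp (-β) * x2 := by positivity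
        linarith
      have k4 : log (exp (-β) * x2 + exp β * y2) ≤ β + log y2 + log 2 := by
        rw [e5, ← log_mul hp.ne' (by norm_num)]
        apply log_le_log (by positivity)
        linarith
      rw [abs_le]
      constructor <;> linarith

/-- comparison of the projections to two segments with close ends -/
theorem prj_close_aux {n n' g : G} {α β p α' β' p' C₀ : ℝ} (h1 : dist (gam n α) (gam n' α') ≤ C₀)
    (h2 : dist (gam n β) (gam n' β') ≤ C₀) (hα : α ≤ p) (hβ : p ≤ β) (ha : α < p → Ahead n p g)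
    (hb : p < β → Behind n p g) (hα' : α' ≤ p') (hβ' : p' ≤ β') (ha' : α' < p' → Ahead n' p' g)
    (hb' : p' < β' → Behind n' p' g) : |p + (α' - α) - p'| ≤ 2 * C₀ + 1 := by
  have e1 := abs_le.1 (bus_prj hα hβ ha hb)
  have e2 := abs_le.1 (bus_prj hα' hβ' ha' hb')
  have e3 := abs_le.1 ((bus_lip n n' α α' g).trans h1)
  have e4 := abs_le.1 ((bus_lip n n' β β' g).trans h2)
  have e5 := abs_le.1 (close_len (hα.trans hβ) (hα'.trans hβ') h1 h2)
  rw [abs_le]
  constructor <;> linarith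

/-! ### Triangles -/

private theorem Tri_cosh (w : ℍ) (τ : ℝ) : cosh (dist (vert τ) w) =
    (w.re ^ 2 + w.im ^ 2 + exp (2 * τ)) / (2 * exp τ * w.im) := by
  rw [UpperHalfPlane.cosh_dist']
  have e1 : (vert τ).re = 0 := rfl
  have e2 : (vert τ).im = exp τ := rfl
  have e3 : exp (2 * τ) = exp τ ^ 2 := by
    rw [← exp_nat_mul]
    push_cast
    rfl
  rw [e1, e2, e3]
  congr 1
  ring

private theorem Tri_four : log 4 ≤ 2 := by
  have h : (4 : ℝ) = 2 ^ 2 := by norm_num
  rw [h, log_pow]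
  have := Tri_log2
  push_cast
  linarith

private theorem Tri_dist {w : ℍ} {σ τ r : ℝ}
    (h : cosh (dist (vert σ) w) * exp r ≤ 2 * cosh (dist (vert τ) w)) :
    r + dist (vert σ) w ≤ dist (vert τ) w + 2 := by
  have h1 : exp (dist (vert σ) w) ≤ 2 * cosh (dist (vert σ) w) := by
    rw [cosh_eq]
    linarith [exp_pos (-dist (vert σ) w)]
  have h2 : cosh (dist (vert τ) w) ≤ exp (dist (vert τ) w) := by
    rw [cosh_eq]
    have : exp (-dist (vert τ) w) ≤ exp (dist (vert τ) w) :=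
      exp_le_exp.2 (by linarith [dist_nonneg (x := vert τ) (y := w)])
    linarith
  have h3 : exp (r + dist (vert σ) w) ≤ exp (dist (vert τ) w + log 4) := by
    rw [exp_add, exp_add, exp_log (by norm_num)]
    have h4 := mul_le_mul_of_nonneg_left h1 (exp_pos r).le
    nlinarith
  have h4 := exp_le_exp.1 h3
  have := Tri_four
  linarith

/-- Pythagoras: projection of a point to a segment of the imaginary axis -/
private theorem Tri_vert (w : ℍ) {L : ℝ} (hL : 0 ≤ L) : ∃ σ, 0 ≤ σ ∧ σ ≤ L ∧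
    σ + dist (vert σ) w ≤ dist (vert 0) w + 2 ∧
    (L - σ) + dist (vert σ) w ≤ dist (vert L) w + 2 := by
  have him := w.im_pos
  obtain ⟨R, hR⟩ : ∃ R, R = w.re ^ 2 + w.im ^ 2 := ⟨_, rfl⟩
  have hR0 : 0 < R := by rw [hR]; positivity
  have hc : ∀ τ, cosh (dist (vert τ) w) = (R + exp (2 * τ)) / (2 * exp τ * w.im) := by
    intro τ
    rw [hR]
    exact Tri_cosh w τ
  -- the two estimates
  have k1 : ∀ σ, exp (2 * σ) ≤ R + 2 → σ + dist (vert σ) w ≤ dist (vert 0) w + 2 := by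
    intro σ hσ
    apply Tri_dist
    rw [hc, hc, mul_zero, exp_zero]
    have hp := exp_pos σ
    rw [div_mul_eq_mul_div, mul_div_assoc', div_le_div_iff₀ (by positivity) (by positivity)]
    have : 0 ≤ (R + 2 - exp (2 * σ)) * (exp σ * w.im * 2) := by
      apply mul_nonneg (by linarith)
      positivity
    nlinarith
  have k2 : ∀ σ, R * exp (2 * L - 2 * σ) ≤ 2 * R + exp (2 * L) →
      (L - σ) + dist (vert σ) w ≤ dist (vert L) w + 2 := by
    intro σ hσ
    apply Tri_dist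
    rw [hc, hc]
    have hp := exp_pos σ
    have hpL := exp_pos L
    have e1 : exp (2 * σ) = exp σ ^ 2 := by
      rw [← exp_nat_mul]; push_cast; rfl
    have e2 : exp (2 * L) = exp L ^ 2 := by
      rw [← exp_nat_mul]; push_cast; rfl
    have e3 : exp (L - σ) = exp L / exp σ := exp_sub _ _
    have e4 : exp (2 * L - 2 * σ) = exp L ^ 2 / exp σ ^ 2 := by
      rw [exp_sub, e1, e2]
    rw [e4, e2] at hσ
    rw [e1, e2, e3]
    have e5 : R * exp L ^ 2 ≤ (2 * R + exp L ^ 2) * exp σ ^ 2 := by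
      have := mul_le_mul_of_nonneg_right hσ (sq_nonneg (exp σ))
      have e6 : R * (exp L ^ 2 / exp σ ^ 2) * exp σ ^ 2 = R * exp L ^ 2 := by
        field_simp
      rwa [e6] at this
    have e7 : (R + exp σ ^ 2) / (2 * exp σ * w.im) * (exp L / exp σ) =
        ((R + exp σ ^ 2) * exp L ^ 2) / (2 * exp σ ^ 2 * w.im * exp L) := by
      field_simp
    have e8 : 2 * ((R + exp L ^ 2) / (2 * exp L * w.im)) =
        (2 * (R + exp L ^ 2) * exp σ ^ 2) / (2 * exp σ ^ 2 * w.im * exp L) := by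
      field_simp
    rw [e7, e8]
    apply div_le_div_of_nonneg_right _ (by positivity)
    nlinarith
  rcases le_or_gt R 1 with h1 | h1
  · refine ⟨0, le_rfl, hL, k1 0 (by simp; linarith), k2 0 ?_⟩
    rw [mul_zero, sub_zero]
    have := exp_pos (2 * L)
    nlinarith
  rcases le_or_gt (exp (2 * L)) R with h2 | h2
  · refine ⟨L, hL, le_rfl, k1 L (by linarith), k2 L ?_⟩
    rw [sub_self, exp_zero]
    have := exp_pos (2 * L)
    linarith
  · have hlog : exp (2 * (log R / 2)) = R := by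
      rw [mul_div_cancel₀ _ (two_ne_zero), exp_log hR0]
    refine ⟨log R / 2, ?_, ?_, k1 _ (by rw [hlog]; linarith), k2 _ ?_⟩
    · have := log_nonneg h1.le
      linarith
    · have := log_lt_log hR0 h2
      rw [log_exp] at this
      linarith
    · rw [exp_sub, hlog, mul_div_assoc', mul_comm R, mul_div_assoc, div_self hR0.ne', mul_one]
      linarith

/-- projection of a point to a segment -/
theorem exists_proj (n : G) (w : ℍ) {L : ℝ} (hL : 0 ≤ L) : ∃ σ, 0 ≤ σ ∧ σ ≤ L ∧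
    σ + dist (gam n σ) w ≤ dist (gam n 0) w + 2 ∧
    (L - σ) + dist (gam n σ) w ≤ dist (gam n L) w + 2 := by
  obtain ⟨σ, h1, h2, h3, h4⟩ := Tri_vert (n⁻¹ • w) hL
  have h : ∀ τ, dist (gam n τ) w = dist (vert τ) (n⁻¹ • w) := by
    intro τ
    unfold gam
    rw [← dist_smul n (vert τ) (n⁻¹ • w), smul_inv_smul]
  refine ⟨σ, h1, h2, ?_, ?_⟩
  · rw [h, h]
    exact h3
  · rw [h, h]
    exact h4

theorem centre : ∃ K₀ : ℝ, ∀ (s t u : ℍ) (n₁ n₂ n₃ : G), gam n₁ 0 = s → gam n₁ (dist s t) = t →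
    gam n₂ 0 = t → gam n₂ (dist t u) = u → gam n₃ 0 = u → gam n₃ (dist u s) = s →
    ∃ (o : ℍ) (a b c : ℝ), 0 ≤ a ∧ a ≤ dist s t ∧ 0 ≤ b ∧ b ≤ dist t u ∧ 0 ≤ c ∧ c ≤ dist u s ∧
      dist o (gam n₁ a) ≤ K₀ ∧ dist o (gam n₂ b) ≤ K₀ ∧ dist o (gam n₃ c) ≤ K₀ := by
  refine ⟨3, fun s t u n₁ n₂ n₃ h1 h1' h2 h2' h3 h3' => ?_⟩
  obtain ⟨a, a0, aL, a1, a2⟩ := exists_proj n₁ u (dist_nonneg (x := s) (y := t))
  obtain ⟨b, b0, bL, b1, b2⟩ := exists_proj n₂ (gam n₁ a) (dist_nonneg (x := t) (y := u))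
  obtain ⟨c, c0, cL, c1, c2⟩ := exists_proj n₃ (gam n₁ a) (dist_nonneg (x := u) (y := s))
  rw [h1] at a1
  rw [h1'] at a2
  rw [h2] at b1
  rw [h2'] at b2
  rw [h3] at c1
  rw [h3'] at c2
  have ea : dist s (gam n₁ a) = a := by
    rw [← h1, dist_gam, zero_sub, abs_neg, abs_of_nonneg a0]
  have et : dist t (gam n₁ a) = dist s t - a := by
    have : dist (gam n₁ (dist s t)) (gam n₁ a) = dist s t - a := by
      rw [dist_gam, abs_of_nonneg (by linarith)]
    rwa [h1'] at this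
  rw [et] at b1
  rw [ea] at c2
  have e1 : dist u (gam n₁ a) = dist (gam n₁ a) u := dist_comm _ _
  rw [e1] at b2 c1
  have e2 : dist u s = dist s u := dist_comm _ _
  refine ⟨gam n₁ a, a, b, c, a0, aL, b0, bL, c0, cL, ?_, ?_, ?_⟩
  · rw [dist_self]
    norm_num
  · rw [dist_comm]
    linarith
  · rw [dist_comm]
    linarith

end Pool.Agent.H99.BC
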